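import Mathlib
import Pool.Agent.Lib.MP_2f3286_ag.GU.Geo

/-!
# Adelic sections of the full fundamental group of an affine curve over a number field

Let `U = Spec R` be an affine curve over a number field `k` with function field `K`, having a
nonconstant function `f` from `U` to the complement in `A¹` of the zeros of polynomials `P j` over `k`,
and let `M` be the maximal extension of `K` unramified over `U`, so that `Gal(M/K) = π₁(U)`. Suppose
that over an extension `L` of `k` these zeros contain at least `[L:F]` closed points for a field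
`F ⊂ L` with one archimedean place, or one closed point not equal to its complex conjugate if `L` is a CM
field and `k` totally real, or three points with a ratio that is not real if `L` is a CM field. Every
section of `π₁(U) → G_k` which is locally geometric, such that at almost all places the order of contact
of the local point with the boundary is `0` or not divisible by a fixed number `N`, is over a finite
extension of `k` the section of a point of `U`; if the functions on `U` are sums of units of coverings,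
it is the section of exactly one rational point of `U`.
-/

open IsDedekindDomain NumberField Polynomial

namespace Pool.Agent.Results.MP_2f3286_ag.AdelicFull

/-- `Respects s F ι φ`, for a homomorphism `φ` from a subring `B` of `M` to `Fb`, an algebraic
closure of `F`, and an embedding `ι : kb → Fb`: `φ` extends `ι` and intertwines the action on `B` of
`Gal(Fb/F)` through the section `s` with the Galois action, i.e. over `F` the section `s` is the
section of the point `φ`. -/
def Respects {k K M kb : Type*} [Field k] [Field kb] [Algebra k kb] [Field K] [Field M]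
    [Algebra K M] [Algebra kb M] {C : Type*} [SetLike C M] [SubringClass C M] {B : C}
    (s : Gal(kb/k) →* Gal(M/K)) (F : Type*) {Fb : Type*} [Field F] [Field Fb] [Algebra F Fb]
    (ι : kb →+* Fb) (φ : B →+* Fb) : Prop :=
  (∀ (a : kb) (b : B), (b : M) = algebraMap kb M a → φ b = ι a) ∧
  ∀ (σ : Gal(kb/k)) (τ : Gal(Fb/F)), (∀ a, ι (σ a) = τ (ι a)) →
    ∀ b b' : B, (b' : M) = s σ b → φ b' = τ (φ b)

/-- `Ψ` is a `kb`-point of the integral closure of `R` in `M`. -/
def IsPt (R M kb : Type*) [CommRing R] [Field M] [Field kb] [Algebra R M] [Algebra kb M]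
    (Ψ : integralClosure R M →+* kb) : Prop :=
  ∀ (a : kb) (b : integralClosure R M), (b : M) = algebraMap kb M a → Ψ b = a

/-- The restriction of the section `s` to the subgroup `Δ` is the section of the point `Ψ`. -/
def IsSectionOn {k R K M kb : Type*} [Field k] [CommRing R] [Field kb] [Algebra k kb] [Field K]
    [Field M] [Algebra K M] [Algebra R M] [Algebra kb M] (s : Gal(kb/k) →* Gal(M/K))
    (Δ : Subgroup Gal(kb/k)) (Ψ : integralClosure R M →+* kb) : Prop :=
  IsPt R M kb Ψ ∧ ∀ σ ∈ Δ, ∀ b b' : integralClosure R M, (b' : M) = s σ b → Ψ b' = σ (Ψ b)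

/-- The inertia elements: automorphisms of `Ω` over `K` that fix a `kb`-point of the integral closure
of `R` in `Ω`. -/
def inertia (R K Ω kb : Type*) [CommRing R] [Field K] [Field Ω] [Field kb] [Algebra R Ω]
    [Algebra K Ω] [Algebra kb Ω] : Set Gal(Ω/K) :=
  {g | ∃ Ψ : integralClosure R Ω →+* kb, IsPt R Ω kb Ψ ∧
    ∀ b b' : integralClosure R Ω, (b' : Ω) = g b → Ψ b' = Ψ b}

/-- `M` is the maximal extension of `K` that is unramified over the curve with ring of functions `R`:
the field of all elements of an algebraic closure of `M` that are fixed by the inertia elements. -/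
def IsMaxUnram (R K M kb : Type*) [CommRing R] [Field K] [Field M] [Field kb] [Algebra R M]
    [Algebra K M] [Algebra kb M] : Prop :=
  ∀ x : AlgebraicClosure M, (∃ m : M, algebraMap M (AlgebraicClosure M) m = x) ↔
    ∀ g ∈ inertia R K (AlgebraicClosure M) kb, g x = x

/-- `M` is unramified over the spectrum of `R`: no nontrivial automorphism of `M` over `K` fixes a
`kb`-point of the integral closure of `R` in `M`. -/
def IsUnram (R K M kb : Type*) [CommRing R] [Field K] [Field M] [Field kb] [Algebra R M]
    [Algebra K M] [Algebra kb M] : Prop :=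
  ∀ g ∈ inertia R K M kb, g = 1

/-- `M` is closed under unramified radicals: every element that is at each point of the integral
closure of `R` in `M` a unit times an `n`-th power has an `n`-th root in `M`. -/
def IsRadClosed (R M kb : Type*) [CommRing R] [Field M] [Field kb] [Algebra R M]
    [Algebra kb M] : Prop :=
  ∀ (n : ℕ) (ρ : M), 1 ≤ n → ρ ≠ 0 → (∀ Ψ : integralClosure R M →+* kb, IsPt R M kb Ψ →
    ∃ (c : M) (x y : integralClosure R M), Ψ x ≠ 0 ∧ Ψ y ≠ 0 ∧ ρ * x = c ^ n * y) →
    ∃ β : M, β ^ n = ρ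

universe u

/-- The zeros of the `P i` contain sufficiently many closed points over an extension `L` of `k`, the
zeros of coprime factors `Q j` of the `P i` over `L`:

* at least `m [L:F]` of them, for a field `F ⊂ L` and a finite set `S₀` of finite places of `F`, below
  all places of `L` above `S`, where `m ≤ 2` is the number of places of `F` archimedean or in `S₀`; or

* one of them which is not its own complex conjugate, if `L` is a CM field whose complex conjugation
  `c` is the identity on `k` and fixes the places above `S`; or three of them, of degree one, with a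
  ratio that is not real, if `L` is a CM field whose complex conjugation `c` fixes the places above
  `S`. -/
def EnoughPoints (k : Type u) [Field k] [NumberField k] (S : Finset (HeightOneSpectrum (𝓞 k))) {I : Type*}
    (P : I → k[X]) : Prop :=
  ∃ (L : Type u) (_ : Field L) (_ : NumberField L) (_ : Algebra k L),
    (∃ (F : Type u) (_ : Field F) (_ : NumberField F) (_ : Algebra F L)
      (S₀ : Finset (HeightOneSpectrum (𝓞 F))) (n : ℕ) (Q : Fin n → L[X]),
      (∀ w : HeightOneSpectrum (𝓞 L), (∃ v ∈ S, w.asIdeal.LiesOver v.asIdeal) →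
        ∃ w₀ ∈ S₀, w.asIdeal.LiesOver w₀.asIdeal) ∧
      (∀ j, 0 < (Q j).natDegree ∧ ∃ i, Q j ∣ (P i).map (algebraMap k L)) ∧
      (Pairwise fun j j' => IsCoprime (Q j) (Q j')) ∧
      Fintype.card (InfinitePlace F) + S₀.card ≤ 2 ∧
      (Fintype.card (InfinitePlace F) + S₀.card) * Module.finrank F L ≤ n) ∨
    ∃ c : L ≃+* L, (∀ (σ : L →+* ℂ) (x : L), σ (c x) = starRingEnd ℂ (σ x)) ∧
      (∀ w : HeightOneSpectrum (𝓞 L), (∃ v ∈ S, w.asIdeal.LiesOver v.asIdeal) →
        ∀ x : L, w.valuation L (c x) = w.valuation L x) ∧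
      (((∀ x : k, c (algebraMap k L x) = algebraMap k L x) ∧ ∃ (i : I) (Q : L[X]),
          0 < Q.natDegree ∧ IsCoprime Q (Q.map (c : L →+* L)) ∧ Q ∣ (P i).map (algebraMap k L)) ∨
        ∃ (a : Fin 3 → L) (i : Fin 3 → I), (∀ t, aeval (a t) (P (i t)) = 0) ∧
          (a 0 - a 2) * c (a 1 - a 2) ≠ c (a 0 - a 2) * (a 1 - a 2))

theorem result {k : Type u} [Field k] [NumberField k] {K : Type*} [Field K] [Algebra k K]
    (R : Subalgebra k K) (hR : ∀ y : K, IsIntegral R y → y ∈ R) (hfg : R.FG)
    (f : R) (hf : Transcendental k (f : K))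
    [FiniteDimensional (IntermediateField.adjoin k {(f : K)}) K]
    (S : Finset (HeightOneSpectrum (𝓞 k))) {J : Type*} [Fintype J] (P : J → k[X])
    (hP : EnoughPoints k S P) (hunit : ∀ j, IsUnit (aeval f (P j)))
    {M : Type*} [Field M] [Algebra K M] [IsGalois K M]
    [Algebra (AlgebraicClosure k) M] [Algebra k M]
    [IsScalarTower k K M] [IsScalarTower k (AlgebraicClosure k) M]
    (hM : IsMaxUnram R K M (AlgebraicClosure k) ∨
      (IsUnram R K M (AlgebraicClosure k) ∧ IsRadClosed R M (AlgebraicClosure k)))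
    (s : Gal(AlgebraicClosure k/k) →* Gal(M/K)) (hs : Continuous s)
    (hsec : ∀ σ a, s σ (algebraMap (AlgebraicClosure k) M a) =
      algebraMap (AlgebraicClosure k) M (σ a))
    (ι : ∀ v : {v : HeightOneSpectrum (𝓞 k) // v ∉ S},
      AlgebraicClosure k →ₐ[k] AlgebraicClosure (v.1.adicCompletion k))
    (φ : ∀ v : {v : HeightOneSpectrum (𝓞 k) // v ∉ S},
      integralClosure R M →+* AlgebraicClosure (v.1.adicCompletion k))
    (hφ : ∀ v, Respects s (v.1.adicCompletion k)
      (ι v : _ →+* AlgebraicClosure (v.1.adicCompletion k)) (φ v))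
    (T : Finset (HeightOneSpectrum (𝓞 k))) (N : ℕ) (hN : 1 ≤ N)
    (hint : ∀ v, v.1 ∉ T → ∀ j, ∀ y z : v.1.adicCompletion k,
      φ v (algebraMap R (integralClosure R M) (aeval f (P j))) = algebraMap _ _ y →
      Valued.v y = Valued.v z ^ N → Valued.v y = 1) :
    ∃ (c₀ : k) (Δ : Subgroup Gal(AlgebraicClosure k/k))
      (Ψ : integralClosure R M →+* AlgebraicClosure k),
      -- over a finite extension of `k` the section is the section of the point `Ψ`
      IsOpen (Δ : Set Gal(AlgebraicClosure k/k)) ∧ IsSectionOn s Δ Ψ ∧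
      Ψ (algebraMap R _ f) = algebraMap k _ c₀ ∧
      (∀ v, φ v (algebraMap R _ f) = ι v (algebraMap k _ c₀)) ∧
      (∀ (Δ' : Subgroup Gal(AlgebraicClosure k/k)) (Ψ' : integralClosure R M →+* AlgebraicClosure k),
        IsOpen (Δ' : Set Gal(AlgebraicClosure k/k)) → IsSectionOn s Δ' Ψ' →
        (∀ r : R, Ψ' (algebraMap R _ r) = Ψ (algebraMap R _ r)) → Ψ' = Ψ) ∧
      -- over `k`, if the image of `Ψ` in `U` is rational
      ((∀ r : R, ∃ c : k, Ψ (algebraMap R _ r) = algebraMap k _ c) → IsSectionOn s ⊤ Ψ) ∧
      -- it is rational, if `R` lies in the ring generated by the units of `B`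
      ((∀ r : R, algebraMap R M r ∈ Subring.closure {b : M | IsIntegral R b ∧ IsIntegral R b⁻¹}) →
        (∀ r : R, ∃ c : k, Ψ (algebraMap R _ r) = algebraMap k _ c ∧
          ∀ v, φ v (algebraMap R _ r) = ι v (algebraMap k _ c)) ∧
        ∀ Ψ' : integralClosure R M →+* AlgebraicClosure k, IsSectionOn s ⊤ Ψ' → Ψ' = Ψ) := by
  have hun : IsUnram R K M (AlgebraicClosure k) := by
    rcases hM with h | h
    · rintro g ⟨Ψ, hΨ, hg⟩
      exact Pool.Agent.Lib.MP_2f3286_ag.Pt.unram_of_max R h Ψ hΨ g hg
    · exact h.1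
  have hmax : IsRadClosed R M (AlgebraicClosure k) := by
    rcases hM with h | h
    · exact Pool.Agent.Lib.MP_2f3286_ag.Pt.radClosed_of_max R h
    · exact h.2
  have htop : ∀ Ψ : integralClosure R M →+* AlgebraicClosure k,
      Respects s k (RingHom.id _) Ψ ↔ IsSectionOn s ⊤ Ψ := by
    intro Ψ
    constructor
    · exact fun h => ⟨h.1, fun σ _ b b' hb => h.2 σ σ (fun x => rfl) b b' hb⟩
    · refine fun h => ⟨h.1, fun σ τ hστ b b' hb => ?_⟩
      have h1 : τ = σ := by
        ext x; exact (hστ x).symm
      rw [h1]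
      exact h.2 σ (Subgroup.mem_top σ) b b' hb
  have h0 : ∀ j, aeval (f : K) (P j) ≠ 0 := by
    intro j
    have h1 : ((aeval f (P j) : R) : K) = aeval (f : K) (P j) := (aeval_algHom_apply R.val f (P j)).symm
    rw [← h1]
    intro h2
    exact (hunit j).ne_zero (Subtype.ext h2)
  have hP0 : ∀ j, P j ≠ 0 := by
    intro j h1
    apply h0 j
    rw [h1, map_zero]
  obtain ⟨j₀, hj₀⟩ := Pool.Agent.Lib.MP_2f3286_ag.GU.deg_of_points.{u, u} S P hP0 hP
  obtain ⟨c₀, Δ, Ψ, h1, h2, h3, h4, h5, h6, h7, h8⟩ :=
    Pool.Agent.Lib.MP_2f3286_ag.GU.final_of_enough R hR hfg f hf S P j₀ hj₀ h0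
      (Pool.Agent.Lib.MP_2f3286_ag.GU.enough_of_points.{u, u} S (f : K) P h0 hP) hunit
      (fun Ψ hΨ g _ hg => hun g ⟨Ψ, hΨ, hg⟩) hmax s hs hsec ι φ hφ T N hN hint
  exact ⟨c₀, Δ, Ψ, h1, ⟨h2, h3⟩, h4, h5, fun Δ' Ψ' hΔ' hΨ' hr => h6 Ψ' hΨ'.1 hr ⟨Δ', hΔ', hΨ'.2⟩,
    fun hk => (htop Ψ).mp (h7 hk), fun hRU => ⟨(h8 hRU).1, fun Ψ' hΨ' =>
      (h8 hRU).2 Ψ' ((htop Ψ').mpr hΨ')⟩⟩

end Pool.Agent.Results.MP_2f3286_ag.AdelicFull
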