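import Mathlib
import Pool.Agent.Lib.MP_2f3286_ag.GU.Geo
import Pool.Agent.Lib.MP_2f3286_ag.Koe.LocalPlace

/-!
# The birational section conjecture with bounded contact, over every number field

A section of the absolute Galois group of the function field `K` of a curve over a number field `k`
comes, at every finite place, from a local point (Koenigsmann; this is part of the proof). Suppose
that the local points at all finite places (or at all places outside `S`) are mapped by a nonconstant
function `t` into the complement in the affine line of the zeros of polynomials `P j` over `k`, and that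
at almost all places the order of contact with these zeros and with infinity is `0` or not divisible by
`N`, for some fixed `N`, for instance less than `N`. Suppose that over an extension `L` of `k` these
zeros contain at least `[L:F]` closed points for a field `F ⊂ L` with one archimedean place (for example
`[k:ℚ]` closed points over `k`), or one closed point not equal to its complex conjugate if `L` is a CM
field and `k` totally real, or three points with a ratio that is not real if `L` is a CM field. Then the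
section comes from exactly one `k`-rational point.
-/

open IsDedekindDomain NumberField Polynomial
open Pool.Agent.Lib.MP_2f3286_ag
open Pool.Agent.Lib.MP_2f3286_bir

namespace Pool.Agent.Results.MP_2f3286_ag.BirationalAdelic

universe u

/-- The zeros of the `P i` contain sufficiently many closed points over an extension `L` of `k`, the
zeros of coprime factors `Q j` of the `P i` over `L`:

* at least `m [L:F]` of them, for a field `F ⊂ L` and a finite set `S₀` of finite places of `F`, below
  all places of `L` above `S`, where `m ≤ 2` is the number of places of `F` archimedean or in `S₀`; or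

* one of them which is not its own complex conjugate, if `L` is a CM field whose complex conjugation
  `c` is the identity on `k` and fixes the places above `S`; or three of them, of degree one, with a
  ratio that is not real, if `L` is a CM field whose complex conjugation `c` fixes the places above
  `S`. -/
def EnoughPoints (k : Type u) [Field k] [NumberField k] (S : Finset (HeightOneSpectrum (𝓞 k))) {I : Type*}
    (P : I → k[X]) : Prop :=
  ∃ (L : Type u) (_ : Field L) (_ : NumberField L) (_ : Algebra k L),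
    (∃ (F : Type u) (_ : Field F) (_ : NumberField F) (_ : Algebra F L)
      (S₀ : Finset (HeightOneSpectrum (𝓞 F))) (n : ℕ) (Q : Fin n → L[X]),
      (∀ w : HeightOneSpectrum (𝓞 L), (∃ v ∈ S, w.asIdeal.LiesOver v.asIdeal) →
        ∃ w₀ ∈ S₀, w.asIdeal.LiesOver w₀.asIdeal) ∧
      (∀ j, 0 < (Q j).natDegree ∧ ∃ i, Q j ∣ (P i).map (algebraMap k L)) ∧
      (Pairwise fun j j' => IsCoprime (Q j) (Q j')) ∧
      Fintype.card (InfinitePlace F) + S₀.card ≤ 2 ∧
      (Fintype.card (InfinitePlace F) + S₀.card) * Module.finrank F L ≤ n) ∨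
    ∃ c : L ≃+* L, (∀ (σ : L →+* ℂ) (x : L), σ (c x) = starRingEnd ℂ (σ x)) ∧
      (∀ w : HeightOneSpectrum (𝓞 L), (∃ v ∈ S, w.asIdeal.LiesOver v.asIdeal) →
        ∀ x : L, w.valuation L (c x) = w.valuation L x) ∧
      (((∀ x : k, c (algebraMap k L x) = algebraMap k L x) ∧ ∃ (i : I) (Q : L[X]),
          0 < Q.natDegree ∧ IsCoprime Q (Q.map (c : L →+* L)) ∧ Q ∣ (P i).map (algebraMap k L)) ∨
        ∃ (a : Fin 3 → L) (i : Fin 3 → I), (∀ t, aeval (a t) (P (i t)) = 0) ∧
          (a 0 - a 2) * c (a 1 - a 2) ≠ c (a 0 - a 2) * (a 1 - a 2))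

theorem result {k : Type u} [Field k] [NumberField k]
    {K : Type*} [Field K] [Algebra k K] (htr : Algebra.trdeg k K = 1)
    {Ω : Type*} [Field Ω] [Algebra K Ω] [IsAlgClosure K Ω]
    [Algebra (AlgebraicClosure k) Ω] [Algebra k Ω]
    [IsScalarTower k K Ω] [IsScalarTower k (AlgebraicClosure k) Ω]
    (t : K) (ht : ∀ c : k, t ≠ algebraMap k K c)
    (S : Finset (HeightOneSpectrum (𝓞 k))) {J : Type*} [Fintype J] (P : J → k[X])
    (hP : EnoughPoints k S P)
    (s : Gal(AlgebraicClosure k/k) →* Gal(Ω/K)) (hs : Continuous s)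
    (hsec : ∀ σ a, s σ (algebraMap (AlgebraicClosure k) Ω a) =
      algebraMap (AlgebraicClosure k) Ω (σ a))
    (T : Finset (HeightOneSpectrum (𝓞 k))) (N : ℕ) (hN : 1 ≤ N)
    (hloc : ∀ v : HeightOneSpectrum (𝓞 k), v ∉ S →
      ∀ (ι : AlgebraicClosure k →ₐ[k] AlgebraicClosure (v.adicCompletion k))
        (A : ValuationSubring Ω) (φ : A →+* AlgebraicClosure (v.adicCompletion k)),
        IsPlaceOf s (v.adicCompletion k) (ι : _ →+* AlgebraicClosure (v.adicCompletion k)) A φ →
        ∃ (h : algebraMap K Ω t ∈ A) (x : v.adicCompletion k),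
          φ ⟨algebraMap K Ω t, h⟩ = algebraMap _ _ x ∧
          ∀ j, aeval x (P j) ≠ 0 ∧
            (v ∉ T → ∀ z : v.adicCompletion k,
              Valued.v (aeval x (P j)) = Valued.v z ^ N → Valued.v (aeval x (P j)) = 1)) :
    ∃ (A₀ : ValuationSubring Ω) (ψ₀ : A₀ →+* AlgebraicClosure k),
      IsPlaceOf s k (RingHom.id _) A₀ ψ₀ ∧
      (∀ v : HeightOneSpectrum (𝓞 k), v ∉ S →
        ∀ (ι : AlgebraicClosure k →ₐ[k] AlgebraicClosure (v.adicCompletion k))
          (A : ValuationSubring Ω) (φ : A →+* AlgebraicClosure (v.adicCompletion k)),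
          IsPlaceOf s (v.adicCompletion k) (ι : _ →+* AlgebraicClosure (v.adicCompletion k)) A φ →
          A = A₀ ∧ ∀ (a : A) (b : A₀), (a : Ω) = b → φ a = ι (ψ₀ b)) ∧
      (∀ (f : K) (h : algebraMap K Ω f ∈ A₀),
        ∃ a : k, ψ₀ ⟨algebraMap K Ω f, h⟩ = algebraMap k (AlgebraicClosure k) a) ∧
      ∀ (A₁ : ValuationSubring Ω) (ψ₁ : A₁ →+* AlgebraicClosure k),
        IsPlaceOf s k (RingHom.id _) A₁ ψ₁ →
        A₁ = A₀ ∧ ∀ (a : A₁) (b : A₀), (a : Ω) = b → ψ₁ a = ψ₀ b := by
  have hcl : IsAlgClosed Ω := IsAlgClosure.isAlgClosed K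
  have halg : Algebra.IsAlgebraic K Ω := IsAlgClosure.isAlgebraic
  have hE : ∀ h0 : ∀ j, aeval t (P j) ≠ 0,
      GU.EnoughUnits.{u, u} k (GU.polyAlg t P) S (GU.polyUnit t P h0) :=
    fun h0 => GU.enough_of_points.{u, u} S t P h0 hP
  -- the local places
  let D : {v : HeightOneSpectrum (𝓞 k) // v ∉ S} → Type _ := fun v =>
    {x : Σ' (_ : AlgebraicClosure k →ₐ[k] AlgebraicClosure (v.1.adicCompletion k))
      (A : ValuationSubring Ω), A →+* AlgebraicClosure (v.1.adicCompletion k) //
      IsPlaceOf s (v.1.adicCompletion k)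
        (x.1 : _ →+* AlgebraicClosure (v.1.adicCompletion k)) x.2.1 x.2.2}
  have h1 : ∀ v, Nonempty (D v) := by
    intro v
    obtain ⟨A, φ, h⟩ := Koe.local_place s hs hsec v.1 (IsAlgClosed.lift :
      AlgebraicClosure k →ₐ[k] AlgebraicClosure (v.1.adicCompletion k))
    exact ⟨⟨⟨_, A, φ⟩, h⟩⟩
  -- the theorem for given local places
  have key : ∀ d : ∀ v, D v, ∃ (A₀ : ValuationSubring Ω) (ψ₀ : A₀ →+* AlgebraicClosure k),
      IsPlaceOf s k (RingHom.id _) A₀ ψ₀ ∧
      (∀ v, (d v).1.2.1 = A₀ ∧ ∀ (a : (d v).1.2.1) (b : A₀), (a : Ω) = b →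
        (d v).1.2.2 a = (d v).1.1 (ψ₀ b)) ∧
      (∀ (f : K) (h : algebraMap K Ω f ∈ A₀),
        ∃ a : k, ψ₀ ⟨algebraMap K Ω f, h⟩ = algebraMap k (AlgebraicClosure k) a) ∧
      ∀ (A₁ : ValuationSubring Ω) (ψ₁ : A₁ →+* AlgebraicClosure k),
        IsPlaceOf s k (RingHom.id _) A₁ ψ₁ →
        A₁ = A₀ ∧ ∀ (a : A₁) (b : A₀), (a : Ω) = b → ψ₁ a = ψ₀ b := by
    intro d
    have h2 := fun v => hloc v.1 v.2 (d v).1.1 (d v).1.2.1 (d v).1.2.2 (d v).2
    choose h3 x h4 h5 using h2
    exact GU.bir_of_enough.{u, u} htr t ht S P hE s hs hsec (fun v => (d v).1.1)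
      (fun v => (d v).1.2.1) (fun v => (d v).1.2.2) (fun v => (d v).2) x
      (fun v => ⟨h3 v, h4 v⟩) (fun v j => (h5 v j).1) T N hN
      (fun v hv j => (h5 v j).2 hv)
  obtain ⟨A₀, ψ₀, h6, -, h7, h8⟩ := key fun v => (h1 v).some
  refine ⟨A₀, ψ₀, h6, fun v hv ι A φ h => ?_, h7, h8⟩
  classical
  obtain ⟨A₁, ψ₁, h9, h10, -⟩ :=
    key (Function.update (fun v => (h1 v).some) ⟨v, hv⟩ ⟨⟨ι, A, φ⟩, h⟩)
  have h11 := h10 ⟨v, hv⟩
  rw [Function.update_self] at h11
  obtain ⟨h12, h13⟩ := h8 A₁ ψ₁ h9
  obtain ⟨h14, h15⟩ := h11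
  refine ⟨h14.trans h12, fun a b hab => ?_⟩
  have h16 : (a : Ω) ∈ A₁ := h14 ▸ a.2
  rw [h15 a ⟨a, h16⟩ rfl, h13 ⟨a, h16⟩ b hab]

end Pool.Agent.Results.MP_2f3286_ag.BirationalAdelic
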