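import Mathlib
import Pool.Agent.Lib.MP_2f3286_ag.Top.Defs
import Pool.Agent.Lib.MP_2f3286_ag.Koe.FDefs
import Pool.Agent.Lib.MP_2f3286_ag.Koe.TDefs
import Pool.Agent.Lib.MP_2f3286_ag.Koe.Converse
import Pool.Agent.Lib.MP_2f3286_ag.Koe.Twist

/-!
# Birational sections and elliptic curves of rank at most one

Let `s` be a section of the absolute Galois group of the function field `K` of a curve over a number
field `k`, and let `W` be an elliptic curve of rank at most one with Tate-Shafarevich group of finite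
exponent over a finite extension `F` of `k`. Then `s` is the section of a `k`-rational place if and
only if, over the field of elements fixed by `s(G_F)`, the elliptic curve has two points which are
independent modulo its points over `F` (for rank zero: one point which is not over `F`).

Every elliptic curve with `j ≠ 0, 1728` over `F` has quadratic twists by elements of `F` which
acquire two such points, for every section `s`. Hence for a section which is not geometric all these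
twists have rank at least two, as far as their Tate-Shafarevich groups are of finite exponent.
-/

open IsDedekindDomain NumberField WeierstrassCurve WeierstrassCurve.Affine
open Pool.Agent.Lib.MP_2f3286_ag.Sel
open Pool.Agent.Lib.MP_2f3286_ag.Koe (FixedPt Fixed IsGeometric twist)

namespace Pool.Agent.Results.MP_2f3286_ag.BirationalElliptic

open scoped Classical in
universe u in
theorem result {k : Type u} [Field k] [NumberField k]
    -- `K` of transcendence degree one over `k`, `Ω` an algebraic closure of `K`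
    {K : Type*} [Field K] [Algebra k K] (htr : Algebra.trdeg k K = 1)
    {Ω : Type*} [Field Ω] [Algebra K Ω] [IsAlgClosure K Ω]
    [Algebra (AlgebraicClosure k) Ω] [Algebra k Ω]
    [IsScalarTower k K Ω] [IsScalarTower k (AlgebraicClosure k) Ω]
    -- a section of absolute Galois groups
    (s : Gal(AlgebraicClosure k/k) →* Gal(Ω/K)) (hs : Continuous s)
    (hsec : ∀ σ a, s σ (algebraMap (AlgebraicClosure k) Ω a) =
      algebraMap (AlgebraicClosure k) Ω (σ a))
    -- a finite extension `F` of `k`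
    {F : Type u} [Field F] [NumberField F] [Algebra k F]
    [Algebra F (AlgebraicClosure k)] [IsScalarTower k F (AlgebraicClosure k)]
    [Algebra F Ω] [IsScalarTower F (AlgebraicClosure k) Ω] :
    -- elliptic curves over `F` of rank at most one, with Tate-Shafarevich group killed by `m`
    (∀ (W : WeierstrassCurve F) [W.IsShortNF] [W.IsElliptic] (m : ℕ), 1 ≤ m → ShaKilledBy W ∅ m →
      ((∃ P : (W⁄F).Point, ∀ Q : (W⁄F).Point, ∃ a : ℤ, IsOfFinAddOrder (Q - a • P)) →
        (IsGeometric s ↔ ∃ η₁ η₂ : (W⁄Ω).Point, FixedPt s η₁ ∧ FixedPt s η₂ ∧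
          ∀ a b : ℤ, (∃ Q : (W⁄F).Point, a • η₁ + b • η₂ = Point.baseChange F Ω Q) →
            a = 0 ∧ b = 0)) ∧
      ((∀ Q : (W⁄F).Point, IsOfFinAddOrder Q) →
        (IsGeometric s ↔ ∃ η : (W⁄Ω).Point, FixedPt s η ∧
          ¬ ∃ Q : (W⁄F).Point, η = Point.baseChange F Ω Q))) ∧
    -- quadratic twists, for sections which are not geometric
    (¬ IsGeometric s → ∀ A B : F, 4 * A ^ 3 + 27 * B ^ 2 ≠ 0 →
      (∀ t : Ω, Fixed s F t → (∀ c : F, algebraMap F Ω c ≠ t) →
        (∃ d : F, d ≠ 0 ∧ ∃ l : Ω, Fixed s F l ∧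
          t ^ 3 + algebraMap F Ω A * t + algebraMap F Ω B = algebraMap F Ω d * l ^ 2) ∧
        ∀ (d : F) (l : Ω) (m : ℕ), d ≠ 0 → Fixed s F l →
          t ^ 3 + algebraMap F Ω A * t + algebraMap F Ω B = algebraMap F Ω d * l ^ 2 →
          1 ≤ m → ShaKilledBy (twist A B d) ∅ m →
          ∃ P : ((twist A B d)⁄F).Point, ¬ IsOfFinAddOrder P) ∧
      (A ≠ 0 → B ≠ 0 → ∀ u : Ω, Fixed s F u → (∀ c : F, algebraMap F Ω c ≠ u) →
        ∃ x : Ω, algebraMap F Ω A * (u ^ 2 * (u ^ 2 + 1)) * x =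
            -(algebraMap F Ω B * (u ^ 4 + u ^ 2 + 1)) ∧
          (∃ d : F, d ≠ 0 ∧ ∃ l : Ω, Fixed s F l ∧
            x ^ 3 + algebraMap F Ω A * x + algebraMap F Ω B = algebraMap F Ω d * l ^ 2) ∧
          ∀ (d : F) (l : Ω) (m : ℕ), d ≠ 0 → Fixed s F l →
            x ^ 3 + algebraMap F Ω A * x + algebraMap F Ω B = algebraMap F Ω d * l ^ 2 →
            1 ≤ m → ShaKilledBy (twist A B d) ∅ m →
            ∀ P : ((twist A B d)⁄F).Point, ∃ Q : ((twist A B d)⁄F).Point,
              ∀ a : ℤ, ¬ IsOfFinAddOrder (Q - a • P))) ∧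
    -- the place of a geometric section
    ∀ (A₀ : ValuationSubring Ω) (ψ₀ : A₀ →+* AlgebraicClosure k),
      IsPlaceOf s k (RingHom.id _) A₀ ψ₀ →
      (∀ (f : K) (h : algebraMap K Ω f ∈ A₀),
        ∃ a : k, ψ₀ ⟨algebraMap K Ω f, h⟩ = algebraMap k (AlgebraicClosure k) a) ∧
      ∀ (A₁ : ValuationSubring Ω) (ψ₁ : A₁ →+* AlgebraicClosure k),
        IsPlaceOf s k (RingHom.id _) A₁ ψ₁ →
        A₁ = A₀ ∧ ∀ (a : A₁) (b : A₀), (a : Ω) = b → ψ₁ a = ψ₀ b := by
  have hcl : IsAlgClosed Ω := IsAlgClosure.isAlgClosed K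
  have halg : Algebra.IsAlgebraic K Ω := IsAlgClosure.isAlgebraic
  have hfin : FiniteDimensional k F := FiniteDimensional.right ℚ k F
  refine ⟨fun W hW1 hW2 m hm hsha => ⟨fun hrk => ⟨?_, ?_⟩, fun hrk => ⟨?_, ?_⟩⟩,
    fun hgeo A B hΔ => ⟨fun t ht htF => ⟨?_, ?_⟩, fun hA hB u hu huF => ?_⟩,
    fun A₀ ψ₀ h => ⟨?_, fun A₁ ψ₁ h' => ?_⟩⟩
  · rintro ⟨A₀, ψ₀, h⟩
    exact Pool.Agent.Lib.MP_2f3286_ag.Koe.exists_points htr s hsec W h
  · rintro ⟨η₁, η₂, h₁, h₂, hind⟩
    obtain ⟨P, hP⟩ := hrk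
    exact Pool.Agent.Lib.MP_2f3286_ag.Koe.exists_place_le_one htr s hs hsec W P hP m hm hsha η₁ η₂
      h₁ h₂ hind
  · rintro ⟨A₀, ψ₀, h⟩
    obtain ⟨η₁, η₂, h₁, h₂, hind⟩ :=
      Pool.Agent.Lib.MP_2f3286_ag.Koe.exists_points htr s hsec W h
    refine ⟨η₁, h₁, ?_⟩
    rintro ⟨Q, hQ⟩
    have := (hind 1 0 ⟨Q, by rw [one_smul, zero_smul, add_zero, hQ]⟩).1
    exact one_ne_zero this
  · rintro ⟨η, h₁, hη⟩
    exact Pool.Agent.Lib.MP_2f3286_ag.Koe.exists_place_zero htr s hs hsec W hrk m hm hsha η h₁ hη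
  · exact Pool.Agent.Lib.MP_2f3286_ag.Koe.exists_twist s hs hsec ht htF A B
  · intro d l m hd hl h hm hsha
    exact Pool.Agent.Lib.MP_2f3286_ag.Koe.rank_one' htr s hs hsec hgeo hΔ ht htF hd hl h m hm hsha
  · exact Pool.Agent.Lib.MP_2f3286_ag.Koe.rank_two' htr s hs hsec hgeo hΔ hA hB hu huF
  · exact fun f hf => Pool.Agent.Lib.MP_2f3286_ag.Koe.value_rational h f hf
  · exact Pool.Agent.Lib.MP_2f3286_bir.place_unique s hs h h'

end Pool.Agent.Results.MP_2f3286_ag.BirationalElliptic
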