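import Mathlib
import Pool.Agent.Lib.MP_2f3286_ag.PA.RClassic
import Pool.Agent.Lib.MP_2f3286_ag.PA.RSel
import Pool.Agent.Lib.MP_2f3286_ag.PA.RMem

/-!
# Adelic sections of curves with coprime radicals

Let `U = Spec R` be an affine curve over a number field `k` with function field `K`, let `M` be the maximal
extension of `K` unramified over `U`, so that `Gal(M/K) = π₁(U)`, and let `s` be a section of
`π₁(U) → G_k` that is locally the section of a point of `U` at every finite place, with order of contact with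
the boundary `0` or not divisible by a fixed number at almost all places. Let `x`, `y` be functions on `U`, `x` not
constant, with `m y ^ p = F(x) G(x) H(x)`, where `F` and `G H`, and `G` and `F H`, are coprime polynomials over a
number field `E` over `k`, `p` is prime and `a ^ p F - b ^ p G = δ` is a nonzero constant. Then `s` is the section of
a point of `U`, if

* (classical case) `E` is `ℚ` or imaginary quadratic with `p` prime to the class number and the order of the unit
  group (or `E = ℚ`, `p = 2`), and the polynomials are coprime over the integers, or at the primes of `E` that are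
  not invariant under the conjugation, if it exchanges `F` and `G`: so for `y ^ p = f(x) ^ 2 + C`, `f ∈ ℤ[X]` monic,
  `C > 0` squarefree, `C` not `7` modulo `8`, `p` odd and prime to the class number of `ℚ(√-C)`, and
  `(C, p) ≠ (3, 3)`; and for `y ^ 2 = x ^ 3 + a x ^ 2 ± x`, `a ∈ ℤ`;
* (Selmer case) the quotients of classes of locally soluble twists are trivial, or totally negative and `p = 2`;
* (real case) `p = 2`, `E` is totally real and `F(t) G(t) < 0` at the real points `t` of `s`: so for a once punctured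
  elliptic curve over `ℚ` with a rational point of order two, and `s` on the compact component over the real numbers.
-/

open IsDedekindDomain NumberField Polynomial

namespace Pool.Agent.Results.MP_2f3286_ag.CoprimeRadicals

/-- `Respects s F ι φ`, for a homomorphism `φ` from a subring `B` of `M` to `Fb`, an algebraic
closure of `F`, and an embedding `ι : kb → Fb`: `φ` extends `ι` and intertwines the action on `B` of
`Gal(Fb/F)` through the section `s` with the Galois action, i.e. over `F` the section `s` is the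
section of the point `φ`. -/
def Respects {k K M kb : Type*} [Field k] [Field kb] [Algebra k kb] [Field K] [Field M]
    [Algebra K M] [Algebra kb M] {C : Type*} [SetLike C M] [SubringClass C M] {B : C}
    (s : Gal(kb/k) →* Gal(M/K)) (F : Type*) {Fb : Type*} [Field F] [Field Fb] [Algebra F Fb]
    (ι : kb →+* Fb) (φ : B →+* Fb) : Prop :=
  (∀ (a : kb) (b : B), (b : M) = algebraMap kb M a → φ b = ι a) ∧
  ∀ (σ : Gal(kb/k)) (τ : Gal(Fb/F)), (∀ a, ι (σ a) = τ (ι a)) →
    ∀ b b' : B, (b' : M) = s σ b → φ b' = τ (φ b)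

/-- `Ψ` is a `kb`-point of the integral closure of `R` in `M`. -/
def IsPt (R M kb : Type*) [CommRing R] [Field M] [Field kb] [Algebra R M] [Algebra kb M]
    (Ψ : integralClosure R M →+* kb) : Prop :=
  ∀ (a : kb) (b : integralClosure R M), (b : M) = algebraMap kb M a → Ψ b = a

/-- The restriction of the section `s` to the subgroup `Δ` is the section of the point `Ψ`. -/
def IsSectionOn {k R K M kb : Type*} [Field k] [CommRing R] [Field kb] [Algebra k kb] [Field K]
    [Field M] [Algebra K M] [Algebra R M] [Algebra kb M] (s : Gal(kb/k) →* Gal(M/K))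
    (Δ : Subgroup Gal(kb/k)) (Ψ : integralClosure R M →+* kb) : Prop :=
  IsPt R M kb Ψ ∧ ∀ σ ∈ Δ, ∀ b b' : integralClosure R M, (b' : M) = s σ b → Ψ b' = σ (Ψ b)

/-- `M` is the maximal extension of `K` that is unramified over the curve with ring of functions `R`: the elements
of an algebraic closure `Ω` of `M` that are in `M` are those fixed by all inertia elements, i.e. the automorphisms of
`Ω` over `K` that fix a `kb`-point of the integral closure of `R` in `Ω`. -/
def IsMaxUnram (R K M kb : Type*) [CommRing R] [Field K] [Field M] [Field kb] [Algebra R M]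
    [Algebra K M] [Algebra kb M] : Prop :=
  ∀ x : AlgebraicClosure M, (∃ m : M, algebraMap M (AlgebraicClosure M) m = x) ↔
    ∀ (g : Gal(AlgebraicClosure M/K)) (Ψ : integralClosure R (AlgebraicClosure M) →+* kb),
      IsPt R (AlgebraicClosure M) kb Ψ →
      (∀ b b' : integralClosure R (AlgebraicClosure M), (b' : AlgebraicClosure M) = g b → Ψ b' = Ψ b) → g x = x

/-- The field `E` has one infinite place, its class number is not divisible by `p` and its units are `p`-th powers up
to the sign; `E = ℚ` if `p = 2`; the polynomials `F`, `G`, `H` and `m` are integral, and there is an integer `n ≠ 0`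
in the ideals `(F, G H)` and `(G, F H)`, divisible by `m` and the leading coefficients of `F` and `G`; `p` divides the
degrees of `F` and `G`, or does not divide the degree of `F G H`, whose leading coefficient divides `n`; and `n` is a
unit, or `G` is the conjugate of `F` by an automorphism of `E` over `k` that fixes the primes which divide `n`. -/
def Case1 (k : Type*) {E : Type*} [Field k] [Field E] [NumberField E] [Algebra k E] (p : ℕ) (F G H : E[X])
    (m : E) : Prop :=
  Nat.card (InfinitePlace E) = 1 ∧ ¬ p ∣ classNumber E ∧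
  (∀ a : (𝓞 E)ˣ, ∃ b : (𝓞 E)ˣ, (a : 𝓞 E) = (b : 𝓞 E) ^ p ∨ (a : 𝓞 E) = -(b : 𝓞 E) ^ p) ∧
  (p = 2 → Module.finrank ℚ E = 1) ∧
  ∃ (F₀ G₀ H₀ A B A' B' : (𝓞 E)[X]) (m₀ n : 𝓞 E), F = F₀.map (algebraMap (𝓞 E) E) ∧
    G = G₀.map (algebraMap (𝓞 E) E) ∧ H = H₀.map (algebraMap (𝓞 E) E) ∧ m = m₀ ∧
    A * F₀ + B * (G₀ * H₀) = C n ∧ A' * G₀ + B' * (F₀ * H₀) = C n ∧ n ≠ 0 ∧ m₀ ∣ n ∧
    F₀.leadingCoeff ∣ n ∧ G₀.leadingCoeff ∣ n ∧
    ((p ∣ F₀.natDegree ∧ p ∣ G₀.natDegree) ∨
      (¬ p ∣ (F₀ * G₀ * H₀).natDegree ∧ (F₀ * G₀ * H₀).leadingCoeff ∣ n)) ∧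
    (IsUnit n ∨ ∃ c : E ≃ₐ[k] E, G = F.map (c : E →+* E) ∧
      ∀ w : HeightOneSpectrum (𝓞 E), n ∈ w.asIdeal → ∀ a, w.valuation E (c a) = w.valuation E a)

/-- The twist by `d` and `d'` is soluble over the completions of `k`: there is a solution `t` such that `F(t) / d`,
`G(t) / d'` and `d d' H(t) / m` are `p`-th powers over the completions of `E`. -/
def Soluble (k : Type*) {E : Type*} [Field k] [Field E] [NumberField k] [NumberField E] [Algebra k E] (p : ℕ)
    (F G H : E[X]) (m d d' : E) : Prop :=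
  ∀ v : HeightOneSpectrum (𝓞 k), ∃ t : v.adicCompletion k,
    ∀ (w : HeightOneSpectrum (𝓞 E)) (θ : v.adicCompletion k →+* w.adicCompletion E),
    (∀ a : k, θ (algebraMap k _ a) = algebraMap E _ (algebraMap k E a)) →
    ∃ r r' r'' : w.adicCompletion E, aeval (θ t) F = algebraMap E _ d * r ^ p ∧
      aeval (θ t) G = algebraMap E _ d' * r' ^ p ∧
      aeval (θ t) H * algebraMap E _ (d * d') = algebraMap E _ m * r'' ^ p

/-- If the twist by `d` and `d'` is soluble over the completions of `k`, then `d / d'` is a `p`-th power and `E` has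
one infinite place, or `p = 2`, `E` is totally real and `d d'` is totally negative. -/
def Case2 (k : Type*) {E : Type*} [Field k] [Field E] [NumberField k] [NumberField E] [Algebra k E] (p : ℕ)
    (F G H : E[X]) (m : E) : Prop :=
  ∀ d d' : E, d ≠ 0 → d' ≠ 0 → Soluble k p F G H m d d' →
    (Nat.card (InfinitePlace E) = 1 ∧ ∃ b : E, d = b ^ p * d') ∨
      (p = 2 ∧ ∀ τ : E →+* ℂ, (∀ a, starRingEnd ℂ (τ a) = τ a) ∧ (τ (d * d')).re < 0)

universe u

section

variable {k : Type u} [Field k] [NumberField k] {K : Type*} [Field K] [Algebra k K] {R : Subalgebra k K}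
  {M : Type*} [Field M] [Algebra K M] [Algebra (AlgebraicClosure k) M]
  {E : IntermediateField k (AlgebraicClosure k)}

/-- The value in `M` of a polynomial with coefficients in `E` at a function `x`. -/
noncomputable def value (M : Type*) [Field M] [Algebra K M] [Algebra (AlgebraicClosure k) M] (P : E[X]) (x : R) : M :=
  P.eval₂ ((algebraMap (AlgebraicClosure k) M).comp (algebraMap E (AlgebraicClosure k)))
    (algebraMap R M x)

/-- The value of a polynomial with coefficients in `E` at a real number, in an embedding `τ`. -/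
noncomputable def valueAt (P : E[X]) (τ : AlgebraicClosure k →+* ℂ) (t : ℝ) : ℂ :=
  P.eval₂ (τ.comp (algebraMap E (AlgebraicClosure k))) (t : ℂ)

/-- Coprime radicals: `p` is a prime number, `m y ^ p = F(x) G(x) H(x)`, where `m ≠ 0`, `F` and `G H` are coprime,
`G` and `F H` are coprime, and `a ^ p F - b ^ p G` is a constant `δ ≠ 0`, while `a ^ p F` is not constant. -/
def Rad (M : Type*) [Field M] [Algebra K M] [Algebra (AlgebraicClosure k) M] (p : ℕ)
    (F G H a b : E[X]) (δ m : E) (x y : R) : Prop :=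
  p.Prime ∧ m ≠ 0 ∧ algebraMap (AlgebraicClosure k) M m * algebraMap R M y ^ p =
    value M F x * value M G x * value M H x ∧ IsCoprime F (G * H) ∧ IsCoprime G (F * H) ∧
    a ^ p * F - b ^ p * G = C δ ∧ δ ≠ 0 ∧ 0 < (a ^ p * F).natDegree

/-- `p = 2` and in each embedding `τ` the field `E` is real and `s` is over the real numbers the section of a point `φ`
at which `x` is a real number `t` with `F(t) G(t) < 0`, or `F(t) G(t) = 0` and `m H(t) < 0`. -/
def Case3 (s : Gal(AlgebraicClosure k/k) →* Gal(M/K)) (p : ℕ) (F G H : E[X]) (m : E) (x : R) : Prop :=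
  p = 2 ∧ ∀ τ : AlgebraicClosure k →+* ℂ, (∀ a : E, starRingEnd ℂ (τ a) = τ a) ∧
    ∃ φ : integralClosure R M →+* ℂ, Respects s ℝ τ φ ∧
      ∃ t : ℝ, φ (algebraMap R _ x) = t ∧ ((valueAt (F * G) τ t).re < 0 ∨
        (valueAt (F * G) τ t = 0 ∧ (valueAt (C m * H) τ t).re < 0))

variable (ι : ∀ v : HeightOneSpectrum (𝓞 k), AlgebraicClosure k →ₐ[k] AlgebraicClosure (v.adicCompletion k))
  (φ : ∀ v : HeightOneSpectrum (𝓞 k), integralClosure R M →+* AlgebraicClosure (v.adicCompletion k))

/-- Over a finite extension of `k` the section `s` is the section of a point, at which the function `x` is rational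
and has the same value as at all the given local points; it is the section of this point over `k` if the image of the
point in `U` is rational. -/
def IsGeometric (s : Gal(AlgebraicClosure k/k) →* Gal(M/K)) (x : R) : Prop :=
  ∃ (a : k) (Δ : Subgroup Gal(AlgebraicClosure k/k)) (Ψ : integralClosure R M →+* AlgebraicClosure k),
    IsOpen (Δ : Set Gal(AlgebraicClosure k/k)) ∧ IsSectionOn s Δ Ψ ∧
    Ψ (algebraMap R _ x) = algebraMap k _ a ∧ (∀ v, φ v (algebraMap R _ x) = ι v (algebraMap k _ a)) ∧
    (∀ (Δ' : Subgroup Gal(AlgebraicClosure k/k)) (Ψ' : integralClosure R M →+* AlgebraicClosure k),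
      IsOpen (Δ' : Set Gal(AlgebraicClosure k/k)) → IsSectionOn s Δ' Ψ' →
      (∀ r : R, Ψ' (algebraMap R _ r) = Ψ (algebraMap R _ r)) → Ψ' = Ψ) ∧
    ((∀ r : R, ∃ c : k, Ψ (algebraMap R _ r) = algebraMap k _ c) → IsSectionOn s ⊤ Ψ)

/-- The section `s` is the section of exactly one point, its image in `U` is rational, and is the image of all the
given local points. -/
def IsRational (s : Gal(AlgebraicClosure k/k) →* Gal(M/K)) : Prop :=
  ∃ Ψ : integralClosure R M →+* AlgebraicClosure k, IsSectionOn s ⊤ Ψ ∧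
    (∀ r : R, ∃ c : k, Ψ (algebraMap R _ r) = algebraMap k _ c ∧
      ∀ v, φ v (algebraMap R _ r) = ι v (algebraMap k _ c)) ∧
    ∀ Ψ' : integralClosure R M →+* AlgebraicClosure k, IsSectionOn s ⊤ Ψ' → Ψ' = Ψ

end

theorem result {k : Type u} [Field k] [NumberField k] {K : Type*} [Field K] [Algebra k K]
    (R : Subalgebra k K) (hR : ∀ y : K, IsIntegral R y → y ∈ R) (hfg : R.FG)
    (x y : R) (hx : Transcendental k (x : K))
    [FiniteDimensional (IntermediateField.adjoin k {(x : K)}) K]
    {M : Type*} [Field M] [Algebra K M] [IsGalois K M]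
    [Algebra (AlgebraicClosure k) M] [Algebra k M]
    [IsScalarTower k K M] [IsScalarTower k (AlgebraicClosure k) M]
    (hM : IsMaxUnram R K M (AlgebraicClosure k))
    (s : Gal(AlgebraicClosure k/k) →* Gal(M/K)) (hs : Continuous s)
    (hsec : ∀ σ a, s σ (algebraMap (AlgebraicClosure k) M a) =
      algebraMap (AlgebraicClosure k) M (σ a))
    (ι : ∀ v : HeightOneSpectrum (𝓞 k), AlgebraicClosure k →ₐ[k] AlgebraicClosure (v.adicCompletion k))
    (φ : ∀ v : HeightOneSpectrum (𝓞 k), integralClosure R M →+* AlgebraicClosure (v.adicCompletion k))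
    (hφ : ∀ v, Respects s (v.adicCompletion k)
      (ι v : _ →+* AlgebraicClosure (v.adicCompletion k)) (φ v))
    (T : Finset (HeightOneSpectrum (𝓞 k))) (N : ℕ) (hN : 1 ≤ N)
    (hint : ∀ v ∉ T, ∀ a b : v.adicCompletion k,
      φ v (algebraMap R (integralClosure R M) x) = algebraMap _ _ a →
      Valued.v a = Valued.v b ^ N → Valued.v a ≤ 1)
    (E : IntermediateField k (AlgebraicClosure k)) [NumberField E]
    (p : ℕ) (F G H a b : E[X]) (δ m : E) (hrad : Rad M p F G H a b δ m x y)
    (hcase : Case1 k p F G H m ∨ Case2 k p F G H m ∨ Case3 s p F G H m x) :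
    IsGeometric ι φ s x ∧
    ((∀ r : R, algebraMap R M r ∈ Subring.closure ({algebraMap R M x, algebraMap R M y} ∪
      {b : M | IsIntegral R b ∧ IsIntegral R b⁻¹})) → IsRational ι φ s) := by
  have hmax' : Pool.Agent.Lib.MP_2f3286_ag.Pt.IsMaxUnram R K M (AlgebraicClosure k) := by
    intro z
    rw [hM z]
    constructor
    · rintro h g ⟨Ψ, hΨ, hg⟩
      exact h g Ψ hΨ hg
    · exact fun h g Ψ hΨ hg => h g ⟨Ψ, hΨ, hg⟩
  have hun := Pool.Agent.Lib.MP_2f3286_ag.Pt.unram_of_max R hmax'
  have hmax := Pool.Agent.Lib.MP_2f3286_ag.Pt.radClosed_of_max R hmax'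
  have hfin : FiniteDimensional k E := Module.Finite.of_restrictScalars_finite ℚ k E
  have htop : ∀ Ψ : integralClosure R M →+* AlgebraicClosure k,
      Respects s k (RingHom.id _) Ψ ↔ IsSectionOn s ⊤ Ψ := by
    intro Ψ
    constructor
    · exact fun h => ⟨h.1, fun σ _ b b' hb => h.2 σ σ (fun x => rfl) b b' hb⟩
    · refine fun h => ⟨h.1, fun σ τ hστ b b' hb => ?_⟩
      have h1 : τ = σ := by
        ext x; exact (hστ x).symm
      rw [h1]
      exact h.2 σ (Subgroup.mem_top σ) b b' hb
  -- the radical data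
  have hval : ∀ P : E[X], value M P x = Pool.Agent.Lib.MP_2f3286_ag.PA.evE R M x P := by
    intro P
    change _ = eval₂ (algebraMap (AlgebraicClosure k) M) (algebraMap R M x)
      (P.map (algebraMap E (AlgebraicClosure k)))
    rw [eval₂_map]
    rfl
  have hrad' : Pool.Agent.Lib.MP_2f3286_ag.PA.RadData R M p E F G H a b δ m x y := by
    obtain ⟨h1, h2, h3, h4, h5, h6, h7, h8⟩ := hrad
    refine ⟨h1, h6, h7, h2, h8, h4, h5, ?_⟩
    rw [hval, hval, hval] at h3
    exact h3
  have hdata : Pool.Agent.Lib.MP_2f3286_ag.PA.UnitData R (M := M) s x := by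
    rcases hcase with h | h | h
    · obtain ⟨h1, h2, h3, h4, F₀, G₀, H₀, A, B, A', B', m₀, n, rfl, rfl, rfl, rfl, h5, h6, h7, h8, h9, h10,
        h11, h12⟩ := h
      refine (Pool.Agent.Lib.MP_2f3286_ag.PA.classical_data R hmax s hs hsec ι φ hφ p hrad'.prime x y hx
        ⟨E, inferInstance, F₀, G₀, H₀, A, B, A', B', m₀, n, a, b, δ, ⟨h1, h2, h3, h4⟩,
          ⟨hrad'.rel, hrad'.δ0, hrad'.nc⟩, ?_, ⟨h5, h6, h7, h8, h9, h10⟩, h11, ?_⟩).1
      · have hval' : ∀ P : (𝓞 E)[X], Pool.Agent.Lib.MP_2f3286_ag.PA.valueInt R M P x =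
            value M (P.map (algebraMap (𝓞 E) E)) x := by
          intro P
          change _ = eval₂ _ _ (P.map _)
          rw [eval₂_map]
          rfl
        rw [hval', hval', hval']
        exact hrad.2.2.1
      · exact h12
    · exact Pool.Agent.Lib.MP_2f3286_ag.PA.data_of_sel R hmax x y hx s hs hsec ι φ hφ p E F G H a b δ m hrad' h
    · obtain ⟨rfl, h⟩ := h
      exact Pool.Agent.Lib.MP_2f3286_ag.PA.data_of_real R hmax x y hx s hs hsec E F G H a b δ m hrad' h
  obtain ⟨a₀, Δ, Ψ, h1, h2, h3, h4, h5, h6, h7, h8⟩ := Pool.Agent.Lib.MP_2f3286_ag.PA.unit_final R hR hfg x hx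
    (fun Ψ hΨ g _ hg => hun Ψ hΨ g hg) hmax s hs hsec ι φ hφ hdata T N hN hint
  refine ⟨⟨a₀, Δ, Ψ, h1, ⟨h2, h3⟩, h4, h5, fun Δ' Ψ' hΔ' hΨ' hr => h6 Ψ' hΨ'.1 hr ⟨Δ', hΔ', hΨ'.2⟩,
    fun hk => (htop Ψ).mp (h7 hk)⟩, fun hRU => ?_⟩
  obtain ⟨hxU, hyU⟩ := Pool.Agent.Lib.MP_2f3286_ag.PA.rad_xy_mem R hmax x y hx p E F G H a b δ m hrad'
  have hRU' : ∀ r : R, algebraMap R M r ∈ Subring.closure {b : M | IsIntegral R b ∧ IsIntegral R b⁻¹} := by
    intro r
    refine (Subring.closure_le.mpr ?_) (hRU r)
    rintro b ((rfl | rfl) | hb)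
    · exact hxU
    · exact hyU
    · exact Subring.subset_closure hb
  refine ⟨Ψ, (htop Ψ).mp (h7 fun r => ?_), (h8 hRU').1, fun Ψ' hΨ' => (h8 hRU').2 Ψ' ((htop Ψ').mpr hΨ')⟩
  obtain ⟨d, hd, -⟩ := (h8 hRU').1 r
  exact ⟨d, hd⟩

end Pool.Agent.Results.MP_2f3286_ag.CoprimeRadicals
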