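import Mathlib
import Pool.Agent.Lib.MP_2f3286_ag.UA.LG4

/-!
# Sections of fundamental groups of curves over number fields, and large fields

For every number field `k`, every function field `K` of a curve over `k` and every Galois extension `M`
of `K` which contains an algebraic closure of `k` (for example the maximal extension unramified over an
open subscheme of the curve), a section of `Gal(M/K)` over the absolute Galois group of `k` is the section
of a rational place if and only if it lifts to a section of the absolute Galois group of `K` whose fixed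
field is large (ample, Pop).
-/

open Polynomial NumberField
open Pool.Agent.Lib.MP_2f3286_ag
open Pool.Agent.Lib.MP_2f3286_ag.Sel (IsPlaceOf)

namespace Pool.Agent.Results.MP_2f3286_ag.GeometricIffLarge

/-- `L` is a large (ample) field: a curve over `L` with a smooth rational point has infinitely many
rational points. -/
def IsLarge (L : Type*) [Field L] : Prop :=
  ∀ (f : L[X][X]) (a b : L), f.evalEval a b = 0 → f.derivative.evalEval a b ≠ 0 →
    {q : L × L | f.evalEval q.1 q.2 = 0}.Infinite

section Definitions

variable {k K M : Type*} [Field k] [Field K] [Field M] [Algebra K M]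
  [Algebra (AlgebraicClosure k) M] (s : Gal(AlgebraicClosure k/k) →* Gal(M/K))

/-- `s` is a continuous section of the projection of `Gal(M/K)` to the absolute Galois group of `k`. -/
def IsSection : Prop :=
  Continuous s ∧ ∀ σ a, s σ (algebraMap (AlgebraicClosure k) M a) =
    algebraMap (AlgebraicClosure k) M (σ a)

/-- `t` is a continuous lift of `s` to the Galois group of the algebraic closure of `M` over `K`. -/
def IsLift (t : Gal(AlgebraicClosure k/k) →* Gal(AlgebraicClosure M/K)) : Prop :=
  Continuous t ∧ ∀ σ m, t σ (algebraMap M (AlgebraicClosure M) m) =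
    algebraMap M (AlgebraicClosure M) (s σ m)

/-- `s` is over `k` the section of the place `(A, ψ)` of `M`, and over every finite extension of `k` it is
the section of no other place. -/
def IsOnlyPlace (A : ValuationSubring M) (ψ : A →+* AlgebraicClosure k) : Prop :=
  IsPlaceOf s k (RingHom.id _) A ψ ∧
    ∀ (E : IntermediateField k (AlgebraicClosure k)), FiniteDimensional k E →
      ∀ (A₁ : ValuationSubring M) (ψ₁ : A₁ →+* AlgebraicClosure k),
      IsPlaceOf s E (RingHom.id _) A₁ ψ₁ →
      A₁ = A ∧ ∀ (a : A₁) (b : A), (a : M) = b → ψ₁ a = ψ b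

end Definitions

universe u v w

theorem result (k : Type u) [Field k] [NumberField k] (K : Type v) [Field K] [Algebra k K] :
    Algebra.trdeg k K = 1 →
    ∀ (M : Type w) [Field M] [Algebra K M] [IsGalois K M] [Algebra (AlgebraicClosure k) M]
      [Algebra k M] [IsScalarTower k K M] [IsScalarTower k (AlgebraicClosure k) M]
      (s : Gal(AlgebraicClosure k/k) →* Gal(M/K)), IsSection s →
      ((∃ (A : ValuationSubring M) (φ : A →+* AlgebraicClosure k),
        IsPlaceOf s k (RingHom.id _) A φ) ↔
        ∃ t, IsLift s t ∧ IsLarge (IntermediateField.fixedField t.range)) ∧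
      ∀ t, IsLift s t → (IsLarge (IntermediateField.fixedField t.range) ↔
        ∃ (B : ValuationSubring (AlgebraicClosure M)) (ψ : B →+* AlgebraicClosure k),
          IsOnlyPlace t B ψ) := by
  intro hK M _ _ _ _ _ _ _ s hs
  have hK0 : CharZero K := charZero_of_injective_algebraMap (algebraMap k K).injective
  have halg : Algebra.IsAlgebraic K (AlgebraicClosure M) := Algebra.IsAlgebraic.trans K M _
  have hcl : IsAlgClosure K (AlgebraicClosure M) := ⟨inferInstance, halg⟩
  have hgal : IsGalois K (AlgebraicClosure M) := IsAlgClosure.isGalois K (AlgebraicClosure M)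
  refine ⟨(UA.place_iff_lift_large hK s hs.1 hs.2).trans
    ⟨fun ⟨t, h1, h2, h3⟩ => ⟨t, ⟨h1, h2⟩, h3⟩, fun ⟨t, ⟨h1, h2⟩, h3⟩ => ⟨t, h1, h2, h3⟩⟩,
    fun t ht => ⟨fun h => ?_, fun ⟨_, _, h⟩ => UA.large_of_place hK h.1⟩⟩
  refine UA.place_of_large hK t ht.1 (fun σ a => ?_) h
  rw [IsScalarTower.algebraMap_apply (AlgebraicClosure k) M (AlgebraicClosure M), ht.2, hs.2,
    ← IsScalarTower.algebraMap_apply (AlgebraicClosure k) M (AlgebraicClosure M)]

end Pool.Agent.Results.MP_2f3286_ag.GeometricIffLarge
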