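import Mathlib
import Pool.Agent.Lib.MP_2f3286_ag.UA.XG
import Pool.Agent.Lib.MP_2f3286_ag.UA.HEx
import Pool.Agent.Lib.MP_2f3286_ag.UA.Crit

/-!
# Sections of curves over a number field and points of one elliptic curve: skeleton
-/

open Polynomial IsDedekindDomain NumberField WeierstrassCurve WeierstrassCurve.Affine
open Pool.Agent.Lib.MP_2f3286_ag
open Pool.Agent.Lib.MP_2f3286_ag.Sel (IsPlaceOf IsSectionAt)
open Pool.Agent.Lib.MP_2f3286_ag.Pt (IsMaxUnramOver)

namespace Pool.Agent.Results.MP_2f3286_ag.OneEllipticCurve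

/-- The elements of `L` which are algebraic over `k` are in `k`. -/
def NoNewConstants (k L : Type*) [Field k] [Field L] [Algebra k L] : Prop :=
  ∀ a : L, IsAlgebraic k a → ∃ c : k, a = algebraMap k L c

/-- `V` is the valuation ring of a rational place of `L` over `k`. -/
def IsRationalPlace (k : Type*) {L : Type*} [Field k] [Field L] [Algebra k L]
    (V : ValuationSubring L) : Prop :=
  V ≠ ⊤ ∧ (∀ c : k, algebraMap k L c ∈ V) ∧
    ∀ x ∈ V, ∃ c : k, V.valuation (x - algebraMap k L c) < 1

/-- The curve `y ^ 2 = x ^ 3 + a x + b`. -/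
def curve {F : Type*} [Field F] (a b : F) : WeierstrassCurve F := ⟨0, 0, 0, a, b⟩

open scoped Classical in
/-- Every continuous 1-cocycle of the absolute Galois group of `F` with values in the geometric points
of the elliptic curve `W` which is killed by a power of `p` and trivial at every finite place becomes a
coboundary after multiplication by `p ^ j`. -/
def IsShaKilledBy {F : Type*} [Field F] [NumberField F] (W : WeierstrassCurve F) (p j : ℕ) : Prop :=
  ∀ c : Gal(AlgebraicClosure F/F) → (W⁄(AlgebraicClosure F)).Point, IsLocallyConstant c →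
    (∀ σ τ, c (σ * τ) =
      c σ + Point.map (σ : AlgebraicClosure F →ₐ[F] AlgebraicClosure F) (c τ)) →
    (∃ n : ℕ, ∀ σ, p ^ n • c σ = 0) →
    (∀ v : HeightOneSpectrum (𝓞 F),
      ∃ (ι : AlgebraicClosure F →ₐ[F] AlgebraicClosure (v.adicCompletion F))
        (b : (W⁄(AlgebraicClosure (v.adicCompletion F))).Point),
        ∀ (σ : Gal(AlgebraicClosure F/F))
          (τ : Gal(AlgebraicClosure (v.adicCompletion F)/(v.adicCompletion F))),
          (∀ a, ι (σ a) = τ (ι a)) → Point.map ι (c σ) =
            Point.map (τ : AlgebraicClosure (v.adicCompletion F) →ₐ[v.adicCompletion F]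
              AlgebraicClosure (v.adicCompletion F)) b - b) →
    ∃ e : (W⁄(AlgebraicClosure F)).Point, ∀ σ : Gal(AlgebraicClosure F/F),
      p ^ j • c σ = Point.map (σ : AlgebraicClosure F →ₐ[F] AlgebraicClosure F) e - e

open scoped Classical in
/-- `y ^ 2 = x ^ 3 + a x + b` is an elliptic curve with finitely many points over `F` and with finite
`p`-primary part of the Tate-Shafarevich group. -/
def IsFiniteAt {F : Type*} [Field F] [NumberField F] (a b : F) (p : ℕ) : Prop :=
  4 * a ^ 3 + 27 * b ^ 2 ≠ 0 ∧ (∀ Q : ((curve a b)⁄F).Point, IsOfFinAddOrder Q) ∧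
    ∃ j, IsShaKilledBy (curve a b) p j

/-- `(x, y)` is a nonconstant point of the curve `y ^ 2 = x ^ 3 + a x + b` over `M`. -/
def IsPoint {F M : Type*} [Field F] [Field M] [Algebra F M] (a b : F) (x y : M) : Prop :=
  Transcendental F x ∧ y ^ 2 = x ^ 3 + algebraMap F M a * x + algebraMap F M b

open scoped Classical in
/-- `x` is in the ring `A`, and so is `1 / (x - x(Q))` for the points `Q` of `p`-power order over `F`:
a point with coordinate `x` is over `A` a point of `E - E(F)[p ^ ∞]`. -/
def IsOn {F M : Type*} [Field F] [Field M] [Algebra F M] (a b : F) (p : ℕ) (x : M)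
    (A : M → Prop) : Prop :=
  A x ∧ ∀ (c e : F) (h : ((curve a b)⁄F).Nonsingular c e),
    (∃ n : ℕ, p ^ n • Point.some c e h = 0) → A (x - algebraMap F M c)⁻¹

section Definitions

variable {k : Type*} [Field k] {K : Type*} [Field K] [Algebra k K]

/-- `R` is the ring of functions of a normal affine curve with function field `K`, and `M` is the
maximal extension of `K` which is unramified over this curve. -/
def IsCurve (R : Subalgebra k K) (M : Type*) [Field M] [Algebra K M]
    [Algebra (AlgebraicClosure k) M] : Prop :=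
  R.FG ∧ (∀ h : K, IsIntegral R h → h ∈ R) ∧ IsMaxUnramOver R K M (AlgebraicClosure k)

variable {M : Type*} [Field M]
  [Algebra K M] [Algebra (AlgebraicClosure k) M] (s : Gal(AlgebraicClosure k/k) →* Gal(M/K))

/-- `x` and `y` are fixed by the section `s` over `F`. -/
def IsFixed (F : Type*) [Field F] [Algebra F (AlgebraicClosure k)] (x y : M) : Prop :=
  ∀ σ : Gal(AlgebraicClosure k/k), (∀ c : F, σ (algebraMap F _ c) = algebraMap F _ c) →
    s σ x = x ∧ s σ y = y

/-- `s` is at each finite place of `F` the section of a place at which the functions in `R` are finite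
(a point of the curve `U`), or of a place at which the point with coordinate `x` is not on
`E - E(F)[p ^ ∞]`. -/
def IsLocallyGeometricOrCuspidal (R : Subalgebra k K) {F : Type*} [Field F] [NumberField F]
    [Algebra F (AlgebraicClosure k)] [Algebra F M] (a b : F) (p : ℕ) (x : M) : Prop :=
  ∀ w : HeightOneSpectrum (𝓞 F),
    ∃ (ι : AlgebraicClosure k →ₐ[F] AlgebraicClosure (w.adicCompletion F))
      (A : ValuationSubring M) (φ : A →+* AlgebraicClosure (w.adicCompletion F)),
      IsPlaceOf s (w.adicCompletion F)
        (ι : _ →+* AlgebraicClosure (w.adicCompletion F)) A φ ∧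
      (IsOn a b p x (· ∈ A) → ∀ r : R, algebraMap K M r ∈ A)

/-- The function `h` has a value in `k` at the place `(A₀, ψ₀)`, and the same value at every place
at which the functions in `R` are finite and of which `s` is the section over a completion of `F`. -/
def HasRationalValue (R : Subalgebra k K) (F : Type*) [Field F] [NumberField F]
    [Algebra F (AlgebraicClosure k)] (A₀ : ValuationSubring M) (ψ₀ : A₀ →+* AlgebraicClosure k)
    (h : K) : Prop :=
  ∃ (c : k) (hh : algebraMap K M h ∈ A₀), ψ₀ ⟨algebraMap K M h, hh⟩ = algebraMap k _ c ∧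
    ∀ (w : HeightOneSpectrum (𝓞 F))
      (ι : AlgebraicClosure k →ₐ[F] AlgebraicClosure (w.adicCompletion F))
      (A : ValuationSubring M) (φ : A →+* AlgebraicClosure (w.adicCompletion F)),
      IsPlaceOf s (w.adicCompletion F) (ι : _ →+* AlgebraicClosure (w.adicCompletion F)) A φ →
      (∀ r : R, algebraMap K M r ∈ A) →
      ∃ h' : algebraMap K M h ∈ A, φ ⟨algebraMap K M h, h'⟩ = ι (algebraMap k _ c)

/-- `s` is the section of the place `(A₀, ψ₀)`, which lies on the curve `U` with ring of functions `R`;
it is the only such place at which the functions on `U` which are not sums of units (of the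
normalisation of `U` in `M`) have given values; the sums of units have rational values; if all functions
on `U` are sums of units, the place is rational. -/
def IsGeometricAt (R : Subalgebra k K) (F : Type*) [Field F] [NumberField F]
    [Algebra F (AlgebraicClosure k)] (A₀ : ValuationSubring M) (ψ₀ : A₀ →+* AlgebraicClosure k) :
    Prop :=
  (∀ r : R, algebraMap K M r ∈ A₀) ∧ IsSectionAt s A₀ ψ₀ ∧
    (∀ (A₁ : ValuationSubring M) (ψ₁ : A₁ →+* AlgebraicClosure k), IsSectionAt s A₁ ψ₁ →
      (∀ (r : R) (h₀ : algebraMap K M r ∈ A₀), ∃ h₁ : algebraMap K M r ∈ A₁,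
        algebraMap K M r ∈ unitRing R M ∨ ψ₁ ⟨_, h₁⟩ = ψ₀ ⟨_, h₀⟩) →
      A₁ = A₀ ∧ ∀ (a : A₁) (b : A₀), (a : M) = b → ψ₁ a = ψ₀ b) ∧
    (∀ h : K, algebraMap K M h ∈ A₀ → algebraMap K M h ∈ unitRing R M →
      HasRationalValue s R F A₀ ψ₀ h) ∧
    ((∀ r : R, algebraMap K M r ∈ unitRing R M) → IsPlaceOf s k (RingHom.id _) A₀ ψ₀)

/-- The point with coordinate `x` is not on `E - E(F)[p ^ ∞]` at the place `(A₀, ψ₀)`, and over a finite
extension of `k` the section `s` is the section of this place. -/
def IsCuspidalAt {F : Type*} [Field F] [Algebra F M] (a b : F) (p : ℕ) (x : M)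
    (A₀ : ValuationSubring M) (ψ₀ : A₀ →+* AlgebraicClosure k) : Prop :=
  ¬ IsOn a b p x (· ∈ A₀) ∧ ∃ E : IntermediateField k (AlgebraicClosure k),
    FiniteDimensional k E ∧ IsPlaceOf s E (RingHom.id _) A₀ ψ₀

/-- The point with coordinate `x` is on `E - E(F)[p ^ ∞]` at the places of which `s` is the section over
a completion of `F` if and only if it is at `A₀`. -/
def SameKind {F : Type*} [Field F] [NumberField F] [Algebra F (AlgebraicClosure k)] [Algebra F M]
    (a b : F) (p : ℕ) (x : M) (A₀ : ValuationSubring M) : Prop :=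
  ∀ (w : HeightOneSpectrum (𝓞 F))
    (ι : AlgebraicClosure k →ₐ[F] AlgebraicClosure (w.adicCompletion F))
    (A : ValuationSubring M) (φ : A →+* AlgebraicClosure (w.adicCompletion F)),
    IsPlaceOf s (w.adicCompletion F)
      (ι : _ →+* AlgebraicClosure (w.adicCompletion F)) A φ →
    (IsOn a b p x (· ∈ A) ↔ IsOn a b p x (· ∈ A₀))

/-- `s` is over `k` the section of the place `(A₀, ψ₀)`, and over every finite extension of `k` it is the
section of no other place. -/
def IsOnlyPlace (A₀ : ValuationSubring M) (ψ₀ : A₀ →+* AlgebraicClosure k) : Prop :=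
  IsPlaceOf s k (RingHom.id _) A₀ ψ₀ ∧
    ∀ (E : IntermediateField k (AlgebraicClosure k)), FiniteDimensional k E →
      ∀ (A₁ : ValuationSubring M) (ψ₁ : A₁ →+* AlgebraicClosure k),
      IsPlaceOf s E (RingHom.id _) A₁ ψ₁ →
      A₁ = A₀ ∧ ∀ (a : A₁) (b : A₀), (a : M) = b → ψ₁ a = ψ₀ b

/-- `U` is an unramified covering of a curve `U₁`, with ring of functions `R₁`, whose function field `K₁`
is contained in `F(x, y)`, and `M` is the maximal unramified extension of `K₁` over `U₁`. -/
def IsCovering (R : Subalgebra k K) (F : Type*) [Field F] [Algebra F M] (x y : M) : Prop :=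
  ∃ (K₁ : IntermediateField k K) (R₁ : Subalgebra k K₁), IsGalois K₁ M ∧ IsCurve R₁ M ∧
    (∀ h : K, h ∈ R ↔ IsIntegral R₁ h) ∧
    ∀ c : K₁, algebraMap K₁ M c ∈ IntermediateField.adjoin F {x, y}

/-- `s` is the section of a point of `U`, or of a place at which the point `(x, y)` is not on
`E - E(F)[p ^ ∞]`; of the same kind as at the finite places of `F`; if `U` is an unramified covering of a
curve whose function field is contained in `F(x, y)`, it is the section of exactly one place. -/
def IsGeometricOrCuspidal (R : Subalgebra k K) {F : Type*} [Field F] [NumberField F]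
    [Algebra F (AlgebraicClosure k)] [Algebra F M] (a b : F) (p : ℕ) (x y : M) : Prop :=
  ∃ (A₀ : ValuationSubring M) (ψ₀ : A₀ →+* AlgebraicClosure k),
    (IsGeometricAt s R F A₀ ψ₀ ∨ IsCuspidalAt s a b p x A₀ ψ₀) ∧ SameKind s a b p x A₀ ∧
    (IsCovering R F x y → IsOnlyPlace s A₀ ψ₀)

end Definitions

open scoped Classical in
/-- The curve `y ^ 2 = x ^ 3 - d x` over `F = k(i)` has finitely many points over `F`, the points of
`2`-power order are `O` and `(0, 0)`, and the `2`-primary part of its Tate-Shafarevich group is zero. -/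
def IsLeast (k : Type*) {F : Type*} [Field k] [Field F] [NumberField F] [Algebra k F] (i d : F) : Prop :=
  i ^ 2 = -1 ∧ (∀ c : F, c ∈ IntermediateField.adjoin k {i}) ∧ d ≠ 0 ∧
    (∀ Q : ((curve (-d) 0)⁄F).Point, IsOfFinAddOrder Q ∧
      ∀ n : ℕ, 2 ^ n • Q = 0 → Q = 0 ∨ ∃ h, Q = Point.some 0 0 h) ∧
    IsShaKilledBy (curve (-d) 0) 2 0

section Proofs

variable {F : Type*} [Field F]

theorem isShortNF (a b : F) : (curve a b).IsShortNF := ⟨rfl, rfl, rfl⟩

theorem isElliptic [NumberField F] {a b : F} (h : 4 * a ^ 3 + 27 * b ^ 2 ≠ 0) :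
    (curve a b).IsElliptic := by
  have := isShortNF a b
  refine ⟨isUnit_iff_ne_zero.2 ?_⟩
  rw [WeierstrassCurve.Δ_of_isShortNF]
  exact mul_ne_zero (by norm_num) h

/-- the point of the elliptic curve -/
theorem nonsingular_of {a b : F} [(curve a b).IsElliptic] {M : Type*} [Field M] [Algebra F M]
    {x y : M} (h : y ^ 2 = x ^ 3 + algebraMap F M a * x + algebraMap F M b) :
    ((curve a b)⁄M).Nonsingular x y := by
  have h1 : ((curve a b)⁄M).Equation x y := by
    rw [Affine.equation_iff]
    change y ^ 2 + algebraMap F M 0 * x * y + algebraMap F M 0 * y =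
      x ^ 3 + algebraMap F M 0 * x ^ 2 + algebraMap F M a * x + algebraMap F M b
    rw [map_zero]
    linear_combination h
  exact (Affine.equation_iff_nonsingular).1 h1

theorem ne_of_isPoint {M : Type*} [Field M] [Algebra F M] {x : M} (h : Transcendental F x) (c : F) :
    x ≠ algebraMap F M c := by
  rintro rfl
  exact h (isAlgebraic_algebraMap c)

end Proofs

universe u v w x

/-- The compositum of `K` and `F` contains a nonconstant point of `y ^ 2 = x ^ 3 - d x`. -/
def HasPoint (k K : Type*) {F : Type*} [Field k] [Field K] [Algebra k K] [Field F]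
    [Algebra F (AlgebraicClosure k)] (d : F) : Prop :=
  ∀ (M : Type x) [Field M] [Algebra K M] [Algebra (AlgebraicClosure k) M] [Algebra k M]
    [IsScalarTower k K M] [IsScalarTower k (AlgebraicClosure k) M]
    [Algebra F M] [IsScalarTower F (AlgebraicClosure k) M],
    ∃ x ∈ IntermediateField.adjoin K (Set.range (algebraMap F M)),
      ∃ y ∈ IntermediateField.adjoin K (Set.range (algebraMap F M)), IsPoint (-d) 0 x y

/-- `K` has an extension of degree at most `4` (at most `2` if `-1` is a square in `k`), with the same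
field of constants, to which the given rational places extend as rational places, and the compositum of
which with `F` contains a nonconstant point of `y ^ 2 = x ^ 3 - d x`. -/
def HasCovering (k : Type u) (K : Type w) {F : Type v} [Field k] [Field K] [Algebra k K] [Field F]
    [Algebra F (AlgebraicClosure k)] (d : F) (S : Set (ValuationSubring K)) : Prop :=
  ∃ (K' : Type w) (_ : Field K') (_ : Algebra K K') (_ : Algebra k K')
    (_ : IsScalarTower k K K'),
    FiniteDimensional K K' ∧ Module.finrank K K' ≤ 4 ∧
    (IsSquare (-1 : k) → Module.finrank K K' ≤ 2) ∧ NoNewConstants k K' ∧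
    HasPoint.{x} k K' d ∧
    ∀ V ∈ S, ∃ V' : ValuationSubring K', IsRationalPlace k V' ∧
      V'.comap (algebraMap K K') = V

theorem result (k : Type u) [Field k] [NumberField k] :
    -- (1) `E` is an elliptic curve over a finite extension `F` of `k`, with finitely many points and
    -- finite `p`-primary part of the Tate-Shafarevich group, for one prime `p`; `s` is a section
    (∀ (F : Type v) [Field F] [NumberField F] [Algebra k F] [Algebra F (AlgebraicClosure k)]
      [IsScalarTower k F (AlgebraicClosure k)] (a b : F) (p : ℕ), p.Prime → IsFiniteAt a b p →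
      ∀ (K : Type w) [Field K] [Algebra k K], Algebra.trdeg k K = 1 →
      ∀ (M : Type x) [Field M] [Algebra K M] [IsGalois K M]
        [Algebra (AlgebraicClosure k) M] [Algebra k M]
        [IsScalarTower k K M] [IsScalarTower k (AlgebraicClosure k) M]
        [Algebra F M] [IsScalarTower F (AlgebraicClosure k) M]
        (s : Gal(AlgebraicClosure k/k) →* Gal(M/K)), Continuous s →
        (∀ σ a, s σ (algebraMap (AlgebraicClosure k) M a) =
          algebraMap (AlgebraicClosure k) M (σ a)) →
        -- (a) `M` is an algebraic closure of `K`: `s` is the section of a rational place, and of only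
        -- one, if and only if there is a nonconstant point of `E` fixed by `s` over `F`
        (IsAlgClosed M →
          ((∃ x y : M, IsPoint a b x y ∧ IsFixed s F x y) ↔
            ∃ (A₀ : ValuationSubring M) (ψ₀ : A₀ →+* AlgebraicClosure k), IsOnlyPlace s A₀ ψ₀)) ∧
        -- (b) `R` is the ring of functions of a normal affine curve `U`, `M` is the maximal unramified
        -- extension of `K` over `U`, there is a nonconstant point of `E - E(F)[p ^ ∞]` over the
        -- normalisation of `U` in `M`, fixed by `s` over `F`, and `s` is locally geometric or cuspidal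
        ∀ (R : Subalgebra k K) (x y : M), IsCurve R M → IsPoint a b x y → IsFixed s F x y →
          IsOn a b p x (IsIntegral R) → IsLocallyGeometricOrCuspidal s R a b p x →
          IsGeometricOrCuspidal s R a b p x y) ∧
    -- (2) there is such a curve `y ^ 2 = x ^ 3 - d x` over `k(i)`, and every function field of a
    -- geometrically irreducible curve over `k` has a small extension with the same constants, to
    -- which given rational places extend as rational places, and to which (1) applies
    ∃ (F : Type u) (_ : Field F) (_ : NumberField F) (_ : Algebra k F)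
      (_ : Algebra F (AlgebraicClosure k)) (_ : IsScalarTower k F (AlgebraicClosure k)) (i d : F),
      IsLeast k i d ∧
      ∀ (K : Type w) [Field K] [Algebra k K], Algebra.trdeg k K = 1 →
        (⊤ : IntermediateField k K).FG → NoNewConstants k K →
        ∀ S : Set (ValuationSubring K), S.Finite → (∀ V ∈ S, IsRationalPlace k V) →
        HasCovering.{u, u, w, x} k K d S := by
  refine ⟨fun F _ _ _ _ _ a b p hp hfin K _ _ htr M _ _ _ _ _ _ _ _ _ s hs hsec =>
    ⟨fun hcl => ⟨?_, ?_⟩, ?_⟩, ?_⟩
  · rintro ⟨x, y, hxy, hfix⟩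
    have := isShortNF a b
    have := isElliptic hfin.1
    obtain ⟨h1, j, h2⟩ := hfin.2
    exact UA.one_field (curve a b) h1 hp h2 htr s hs hsec hfix (nonsingular_of hxy.2)
      (ne_of_isPoint hxy.1)
  · rintro ⟨A₀, ψ₀, h1, -⟩
    obtain ⟨y₀, hy₀⟩ : ∃ y₀ : K, Transcendental k y₀ := by
      have h2 : Algebra.trdeg k K ≠ 0 := by
        rw [htr]
        exact one_ne_zero
      exact (trdeg_ne_zero_iff.1 h2).1
    obtain ⟨x, y, g1, -, g2, g3⟩ := UA.exists_sol_of_place hsec h1 hy₀ (F := F)
      (f := X ^ 3 + C a * X + C b) (by monicity!)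
    refine ⟨x, y, ⟨g2, ?_⟩, g1⟩
    rw [g3]
    simp
  · rintro R x y ⟨hfg, hRn, hmax⟩ hxy hfix hon hloc
    have := isShortNF a b
    have := isElliptic hfin.1
    obtain ⟨h1, j, h2⟩ := hfin.2
    obtain ⟨A₀, ψ₀, ⟨g1, g2⟩, Q, x₁, y₁, h₁, hQ, hfix₁, hmul, hc, hx₁R, hA₀⟩ :=
      UA.one_curve (curve a b) h1 hp h2 htr R hfg hRn hmax s hs hsec hfix (nonsingular_of hxy.2)
        (ne_of_isPoint hxy.1) hon hloc
    refine ⟨A₀, ψ₀, g1.imp_left fun g3 => ⟨g3.1, g3.2.1, g3.2.2.1, fun h hh hu => ?_, g3.2.2.2.2⟩, g2,
      fun ⟨K₁, R₁, hG, hc₁, hR, hK⟩ => ?_⟩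
    · obtain ⟨c, hc, g4, g5⟩ := g3.2.2.2.1 h hh hu
      exact ⟨c, hc, g4, fun w ι A φ hA hRA => g5 w ι A φ ⟨hA, hRA⟩⟩
    obtain ⟨E, hE, hE'⟩ : ∃ E : IntermediateField k (AlgebraicClosure k),
        FiniteDimensional k E ∧ IsPlaceOf s E (RingHom.id _) A₀ ψ₀ := by
      rcases g1 with g1 | g1
      · exact UA.exists_finite_of_section g1.2.1
      · exact g1.2
    exact UA.one_only (curve a b) htr R s hs hsec (nonsingular_of hxy.2) h₁ hmul hc hx₁R hE hE' hA₀
      K₁ R₁ hG hc₁.1 hc₁.2.1 hc₁.2.2 hR hK
  · exact UA.exists_least.{u, w, x} k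

end Pool.Agent.Results.MP_2f3286_ag.OneEllipticCurve
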