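import Mathlib
import Pool.Agent.Lib.MP_2f3286_ag.PA.SelCase

/-!
# Adelic sections of punctured elliptic and hyperelliptic curves

Let `U = Spec R` be an affine curve over a number field `k` with function field `K`, let `M` be the maximal
extension of `K` unramified over `U`, so that `Gal(M/K) = π₁(U)`, and let `s` be a section of
`π₁(U) → G_k` that is locally the section of a point of `U` at every finite place, with order of contact with
the boundary `0` or not divisible by a fixed number at almost all places. It is the section of a point of `U`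
in the following cases, in which `U` need not have nonconstant units:

* `k = ℚ` and `U` maps to the affine curve `y² = P(x)Q(x)`, where `P` and `Q` are coprime over `ℤ`, `Q` is monic
  of even degree and `w² - c = Q g²` has a solution with a nonconstant polynomial `w`, e.g. `Q` is quadratic:
  so for all once punctured elliptic curves `y² = x (x² + a x ± 1)`, `a ∈ ℤ`;
* the same over any `k`, for coprime `P`, `Q`, if the classes `d` for which the equations `d u² = Q(t)`,
  `d u'² = P(t)` can be solved at all finite places are squares (and `k` has one infinite place) or totally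
  negative: e.g. `y² = x³ - p x`, `p ≡ 3 mod 4` a prime number;
* `U` maps to such a curve over a totally real field, and the real points of `s` satisfy `Q(x) < 0`: e.g. to a
  once punctured elliptic curve over `ℚ` with a rational point of order two, and the real point lies on the
  compact component;
* `M` contains a square root of `w(x)² - c` whose sign is changed by the complex conjugations, or fixed by
  the section over a field with one archimedean place.
-/

open IsDedekindDomain NumberField Polynomial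

namespace Pool.Agent.Results.MP_2f3286_ag.PuncturedHyperelliptic

/-- `Respects s F ι φ`, for a homomorphism `φ` from a subring `B` of `M` to `Fb`, an algebraic
closure of `F`, and an embedding `ι : kb → Fb`: `φ` extends `ι` and intertwines the action on `B` of
`Gal(Fb/F)` through the section `s` with the Galois action, i.e. over `F` the section `s` is the
section of the point `φ`. -/
def Respects {k K M kb : Type*} [Field k] [Field kb] [Algebra k kb] [Field K] [Field M]
    [Algebra K M] [Algebra kb M] {C : Type*} [SetLike C M] [SubringClass C M] {B : C}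
    (s : Gal(kb/k) →* Gal(M/K)) (F : Type*) {Fb : Type*} [Field F] [Field Fb] [Algebra F Fb]
    (ι : kb →+* Fb) (φ : B →+* Fb) : Prop :=
  (∀ (a : kb) (b : B), (b : M) = algebraMap kb M a → φ b = ι a) ∧
  ∀ (σ : Gal(kb/k)) (τ : Gal(Fb/F)), (∀ a, ι (σ a) = τ (ι a)) →
    ∀ b b' : B, (b' : M) = s σ b → φ b' = τ (φ b)

/-- `Ψ` is a `kb`-point of the integral closure of `R` in `M`. -/
def IsPt (R M kb : Type*) [CommRing R] [Field M] [Field kb] [Algebra R M] [Algebra kb M]
    (Ψ : integralClosure R M →+* kb) : Prop :=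
  ∀ (a : kb) (b : integralClosure R M), (b : M) = algebraMap kb M a → Ψ b = a

/-- The restriction of the section `s` to the subgroup `Δ` is the section of the point `Ψ`. -/
def IsSectionOn {k R K M kb : Type*} [Field k] [CommRing R] [Field kb] [Algebra k kb] [Field K]
    [Field M] [Algebra K M] [Algebra R M] [Algebra kb M] (s : Gal(kb/k) →* Gal(M/K))
    (Δ : Subgroup Gal(kb/k)) (Ψ : integralClosure R M →+* kb) : Prop :=
  IsPt R M kb Ψ ∧ ∀ σ ∈ Δ, ∀ b b' : integralClosure R M, (b' : M) = s σ b → Ψ b' = σ (Ψ b)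

/-- The inertia elements: automorphisms of `Ω` over `K` that fix a `kb`-point of the integral closure
of `R` in `Ω`. -/
def inertia (R K Ω kb : Type*) [CommRing R] [Field K] [Field Ω] [Field kb] [Algebra R Ω]
    [Algebra K Ω] [Algebra kb Ω] : Set Gal(Ω/K) :=
  {g | ∃ Ψ : integralClosure R Ω →+* kb, IsPt R Ω kb Ψ ∧
    ∀ b b' : integralClosure R Ω, (b' : Ω) = g b → Ψ b' = Ψ b}

/-- `M` is the maximal extension of `K` that is unramified over the curve with ring of functions `R`:
the field of all elements of an algebraic closure of `M` that are fixed by the inertia elements. -/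
def IsMaxUnram (R K M kb : Type*) [CommRing R] [Field K] [Field M] [Field kb] [Algebra R M]
    [Algebra K M] [Algebra kb M] : Prop :=
  ∀ x : AlgebraicClosure M, (∃ m : M, algebraMap M (AlgebraicClosure M) m = x) ↔
    ∀ g ∈ inertia R K (AlgebraicClosure M) kb, g x = x

/-- `M` is unramified over the spectrum of `R`: no nontrivial automorphism of `M` over `K` fixes a
`kb`-point of the integral closure of `R` in `M`. -/
def IsUnram (R K M kb : Type*) [CommRing R] [Field K] [Field M] [Field kb] [Algebra R M]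
    [Algebra K M] [Algebra kb M] : Prop :=
  ∀ g ∈ inertia R K M kb, g = 1

/-- `M` is closed under unramified radicals: every element that is at each point of the integral
closure of `R` in `M` a unit times an `n`-th power has an `n`-th root in `M`. -/
def IsRadClosed (R M kb : Type*) [CommRing R] [Field M] [Field kb] [Algebra R M]
    [Algebra kb M] : Prop :=
  ∀ (n : ℕ) (ρ : M), 1 ≤ n → ρ ≠ 0 → (∀ Ψ : integralClosure R M →+* kb, IsPt R M kb Ψ →
    ∃ (c : M) (x y : integralClosure R M), Ψ x ≠ 0 ∧ Ψ y ≠ 0 ∧ ρ * x = c ^ n * y) →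
    ∃ β : M, β ^ n = ρ


universe u

section

variable {k : Type u} [Field k] [NumberField k] {K : Type*} [Field K] [Algebra k K] (R : Subalgebra k K)

/-- The value in `M` of a polynomial with coefficients in a subfield `F` of the algebraic closure of `k`
at a function `x`. -/
noncomputable def value (M : Type*) [Field M] [Algebra K M] [Algebra (AlgebraicClosure k) M]
    {F : IntermediateField k (AlgebraicClosure k)} (P : F[X]) (x : R) : M :=
  P.eval₂ ((algebraMap (AlgebraicClosure k) M).comp (algebraMap F (AlgebraicClosure k)))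
    (algebraMap R M x)

/-- The value of a polynomial with coefficients in `F` at a real number, in an embedding `τ`. -/
noncomputable def valueAt {F : IntermediateField k (AlgebraicClosure k)} (P : F[X])
    (τ : AlgebraicClosure k →+* ℂ) (t : ℝ) : ℂ :=
  P.eval₂ (τ.comp (algebraMap F (AlgebraicClosure k))) (t : ℂ)

variable {R} {M : Type*} [Field M] [Algebra K M] [Algebra (AlgebraicClosure k) M]

/-- `M` contains a square root `ξ` of `w(x)² - c`, for a nonconstant polynomial `w` and a constant `c ≠ 0` over a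
finite extension `F` of `k`, such that either for each embedding of the algebraic closure of `k` in the complex
numbers the section maps `ξ` to `-ξ` at the complex conjugation, which is the identity on `F` (so `F` is
totally real), or `F` has only one infinite place and `ξ` is fixed by the section over `F`. -/
def SquareRootCase (s : Gal(AlgebraicClosure k/k) →* Gal(M/K)) (x : R) : Prop :=
  ∃ (F : IntermediateField k (AlgebraicClosure k)) (_ : FiniteDimensional k F) (w : F[X]) (c : F) (ξ : M),
    0 < w.natDegree ∧ c ≠ 0 ∧ ξ ^ 2 = value R M w x ^ 2 - algebraMap (AlgebraicClosure k) M c ∧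
    ((∀ τ : AlgebraicClosure k →+* ℂ, ∃ σ ∈ F.fixingSubgroup,
        (∀ a, τ (σ a) = starRingEnd ℂ (τ a)) ∧ s σ ξ = -ξ) ∨
      (Nat.card (InfinitePlace F) = 1 ∧ ∀ σ ∈ F.fixingSubgroup, s σ ξ = ξ))

/-- There are coprime polynomials `P` and `Q` over `k` with `y² = P(x) Q(x)` and a solution of `w² - c = Q g²` with a
nonconstant polynomial `w` and a constant `c ≠ 0`, such that each `d ≠ 0` in `k`, for which the equations
`Q(t) = d u²` and `P(t) = d u'²` have a common solution over the completion at each finite place, is a square, and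
then `k` has only one infinite place, or `k` is totally real and `d` is totally negative. -/
def SelmerCase (x y : R) : Prop :=
  ∃ (P Q w g : k[X]) (c : k), 0 < w.natDegree ∧ c ≠ 0 ∧ w ^ 2 - C c = Q * g ^ 2 ∧ IsCoprime P Q ∧
    y ^ 2 = aeval x P * aeval x Q ∧
    ∀ d : k, d ≠ 0 →
      (∀ v : HeightOneSpectrum (𝓞 k), ∃ t u u' : v.adicCompletion k,
        aeval t Q = algebraMap k _ d * u ^ 2 ∧ aeval t P = algebraMap k _ d * u' ^ 2) →
      (Nat.card (InfinitePlace k) = 1 ∧ IsSquare d) ∨
        ∀ τ : k →+* ℂ, (∀ a, starRingEnd ℂ (τ a) = τ a) ∧ (τ d).re < 0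

/-- Over a finite extension `F` of `k` there are coprime polynomials `P` and `Q` with `y² = P(x) Q(x)` and a solution
of `w² - c = Q g²` with a nonconstant polynomial `w` and a constant `c ≠ 0`; and in each embedding `τ` the field `F` is
real and `s` is over the real numbers the section of a point `φ` at which `x` is a real number `t` with `Q(t) < 0`, or
`Q(t) = 0` and `P(t) < 0`. -/
def RealCase (s : Gal(AlgebraicClosure k/k) →* Gal(M/K)) (x y : R) : Prop :=
  ∃ (F : IntermediateField k (AlgebraicClosure k)) (_ : FiniteDimensional k F) (P Q w g : F[X]) (c : F),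
    0 < w.natDegree ∧ c ≠ 0 ∧ w ^ 2 - C c = Q * g ^ 2 ∧ IsCoprime P Q ∧
    (algebraMap R M y) ^ 2 = value R M P x * value R M Q x ∧
    ∀ τ : AlgebraicClosure k →+* ℂ, (∀ a : F, starRingEnd ℂ (τ a) = τ a) ∧
      ∃ φ : integralClosure R M →+* ℂ, Respects s ℝ τ φ ∧
        ∃ t : ℝ, φ (algebraMap R _ x) = t ∧ ((valueAt Q τ t).re < 0 ∨
          (valueAt Q τ t = 0 ∧ (valueAt P τ t).re < 0))

/-- The field `k` is `ℚ` and there are polynomials `P` and `Q` over the integers that generate the unit ideal, `Q`
monic of even degree, with `y² = P(x) Q(x)`, and a solution of `w² - c = Q g²` with a nonconstant polynomial `w` and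
a constant `c ≠ 0`. -/
def RationalCase (x y : R) : Prop :=
  Function.Surjective (algebraMap ℚ k) ∧ ∃ (P Q A B : ℤ[X]) (w g : k[X]) (c : k),
    0 < w.natDegree ∧ c ≠ 0 ∧ w ^ 2 - C c = Q.map (Int.castRingHom k) * g ^ 2 ∧
    A * P + B * Q = 1 ∧ Q.Monic ∧ Even Q.natDegree ∧ y ^ 2 = aeval x P * aeval x Q

/-- Over a finite extension of `k` the section `s` is the section of a point, at which the function `x` is rational
and has the same value as at all the given local points; it is the section of this point over `k` if the image of the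
point in `U` is rational. -/
def IsGeometric (s : Gal(AlgebraicClosure k/k) →* Gal(M/K)) (x : R)
    (ι : ∀ v : HeightOneSpectrum (𝓞 k), AlgebraicClosure k →ₐ[k] AlgebraicClosure (v.adicCompletion k))
    (φ : ∀ v : HeightOneSpectrum (𝓞 k), integralClosure R M →+* AlgebraicClosure (v.adicCompletion k)) :
    Prop :=
  ∃ (a : k) (Δ : Subgroup Gal(AlgebraicClosure k/k)) (Ψ : integralClosure R M →+* AlgebraicClosure k),
    IsOpen (Δ : Set Gal(AlgebraicClosure k/k)) ∧ IsSectionOn s Δ Ψ ∧
    Ψ (algebraMap R _ x) = algebraMap k _ a ∧ (∀ v, φ v (algebraMap R _ x) = ι v (algebraMap k _ a)) ∧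
    (∀ (Δ' : Subgroup Gal(AlgebraicClosure k/k)) (Ψ' : integralClosure R M →+* AlgebraicClosure k),
      IsOpen (Δ' : Set Gal(AlgebraicClosure k/k)) → IsSectionOn s Δ' Ψ' →
      (∀ r : R, Ψ' (algebraMap R _ r) = Ψ (algebraMap R _ r)) → Ψ' = Ψ) ∧
    ((∀ r : R, ∃ c : k, Ψ (algebraMap R _ r) = algebraMap k _ c) → IsSectionOn s ⊤ Ψ)

/-- The section `s` is the section of exactly one point, its image in `U` is rational, and is the image of all the
given local points. -/
def IsRational (s : Gal(AlgebraicClosure k/k) →* Gal(M/K))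
    (ι : ∀ v : HeightOneSpectrum (𝓞 k), AlgebraicClosure k →ₐ[k] AlgebraicClosure (v.adicCompletion k))
    (φ : ∀ v : HeightOneSpectrum (𝓞 k), integralClosure R M →+* AlgebraicClosure (v.adicCompletion k)) :
    Prop :=
  ∃ Ψ : integralClosure R M →+* AlgebraicClosure k, IsSectionOn s ⊤ Ψ ∧
    (∀ r : R, ∃ c : k, Ψ (algebraMap R _ r) = algebraMap k _ c ∧
      ∀ v, φ v (algebraMap R _ r) = ι v (algebraMap k _ c)) ∧
    ∀ Ψ' : integralClosure R M →+* AlgebraicClosure k, IsSectionOn s ⊤ Ψ' → Ψ' = Ψ

end

theorem result {k : Type u} [Field k] [NumberField k] {K : Type*} [Field K] [Algebra k K]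
    (R : Subalgebra k K) (hR : ∀ y : K, IsIntegral R y → y ∈ R) (hfg : R.FG)
    (x y : R) (hx : Transcendental k (x : K))
    [FiniteDimensional (IntermediateField.adjoin k {(x : K)}) K]
    {M : Type*} [Field M] [Algebra K M] [IsGalois K M]
    [Algebra (AlgebraicClosure k) M] [Algebra k M]
    [IsScalarTower k K M] [IsScalarTower k (AlgebraicClosure k) M]
    (hM : IsMaxUnram R K M (AlgebraicClosure k) ∨
      (IsUnram R K M (AlgebraicClosure k) ∧ IsRadClosed R M (AlgebraicClosure k)))
    (s : Gal(AlgebraicClosure k/k) →* Gal(M/K)) (hs : Continuous s)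
    (hsec : ∀ σ a, s σ (algebraMap (AlgebraicClosure k) M a) =
      algebraMap (AlgebraicClosure k) M (σ a))
    (ι : ∀ v : HeightOneSpectrum (𝓞 k), AlgebraicClosure k →ₐ[k] AlgebraicClosure (v.adicCompletion k))
    (φ : ∀ v : HeightOneSpectrum (𝓞 k), integralClosure R M →+* AlgebraicClosure (v.adicCompletion k))
    (hφ : ∀ v, Respects s (v.adicCompletion k)
      (ι v : _ →+* AlgebraicClosure (v.adicCompletion k)) (φ v))
    (T : Finset (HeightOneSpectrum (𝓞 k))) (N : ℕ) (hN : 1 ≤ N)
    (hint : ∀ v ∉ T, ∀ a b : v.adicCompletion k,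
      φ v (algebraMap R (integralClosure R M) x) = algebraMap _ _ a →
      Valued.v a = Valued.v b ^ N → Valued.v a ≤ 1)
    (hcase : RationalCase x y ∨ SelmerCase x y ∨ RealCase s x y ∨ SquareRootCase s x) :
    IsGeometric s x ι φ ∧
    ((∀ r : R, algebraMap R M r ∈ Subring.closure {b : M | IsIntegral R b ∧ IsIntegral R b⁻¹}) →
      IsRational s ι φ) ∧
    ((RationalCase x y ∨ SelmerCase x y ∨ RealCase s x y) → (R : Set K) ⊆ Algebra.adjoin k {(x : K), (y : K)} →
      IsRational s ι φ) := by
  have hun : IsUnram R K M (AlgebraicClosure k) := by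
    rcases hM with h | h
    · rintro g ⟨Ψ, hΨ, hg⟩
      exact Pool.Agent.Lib.MP_2f3286_ag.Pt.unram_of_max R h Ψ hΨ g hg
    · exact h.1
  have hmax : Pool.Agent.Lib.MP_2f3286_ag.Pt.IsRadClosed R M (AlgebraicClosure k) := by
    rcases hM with h | h
    · exact Pool.Agent.Lib.MP_2f3286_ag.Pt.radClosed_of_max R h
    · exact h.2
  have htop : ∀ Ψ : integralClosure R M →+* AlgebraicClosure k,
      Respects s k (RingHom.id _) Ψ ↔ IsSectionOn s ⊤ Ψ := by
    intro Ψ
    constructor
    · exact fun h => ⟨h.1, fun σ _ b b' hb => h.2 σ σ (fun x => rfl) b b' hb⟩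
    · refine fun h => ⟨h.1, fun σ τ hστ b b' hb => ?_⟩
      have h1 : τ = σ := by
        ext x; exact (hστ x).symm
      rw [h1]
      exact h.2 σ (Subgroup.mem_top σ) b b' hb
  have hval : ∀ {F : IntermediateField k (AlgebraicClosure k)} (S : F[X]),
      value R M S x = Pool.Agent.Lib.MP_2f3286_ag.PA.evM R M x (S.map (algebraMap F (AlgebraicClosure k))) := by
    intro F S
    change _ = eval₂ _ _ (S.map _)
    rw [eval₂_map]
    rfl
  have hvalZ : ∀ S : ℤ[X], algebraMap R M (aeval x S) = Pool.Agent.Lib.MP_2f3286_ag.PA.evM R M x (Pool.Agent.Lib.MP_2f3286_ag.PA.intP k S) := by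
    intro S
    change _ = eval₂ _ _ (S.map _)
    rw [eval₂_map, aeval_def, hom_eval₂]
    exact eval₂_congr (RingHom.ext_int _ _) rfl rfl
  have hvalK : ∀ S : k[X], algebraMap R M (aeval x S) =
      Pool.Agent.Lib.MP_2f3286_ag.PA.evM R M x (S.map (algebraMap k (AlgebraicClosure k))) := by
    intro S
    change _ = eval₂ _ _ (S.map _)
    rw [eval₂_map, aeval_def, hom_eval₂]
    refine eval₂_congr (RingHom.ext fun a => ?_) rfl rfl
    change algebraMap K M (algebraMap k K a) = algebraMap (AlgebraicClosure k) M (algebraMap k _ a)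
    rw [← IsScalarTower.algebraMap_apply, ← IsScalarTower.algebraMap_apply]
  -- the data
  have hcrit : Pool.Agent.Lib.MP_2f3286_ag.PA.CritData R (M := M) s x := by
    rcases hcase with h | h | h | h
    · obtain ⟨hk, P, Q, A, B, w, g, c, hw, hc, hwg, hAB, hQ, hQe, hy⟩ := h
      refine Pool.Agent.Lib.MP_2f3286_ag.PA.crit_of_rat R hmax hk s hs hsec ι φ hφ x y hx P Q A B w g c hw hc hwg hAB hQ hQe ?_
      rw [← hvalZ, ← hvalZ, ← map_mul, ← hy, map_pow]
    · obtain ⟨P, Q, w, g, c, hw, hc, hwg, hPQ, hy, hsel⟩ := h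
      refine Pool.Agent.Lib.MP_2f3286_ag.PA.crit_of_sel R hmax s hs hsec ι φ hφ x y hx P Q w g c hw hc hwg hPQ ?_ hsel
      rw [← hvalK, ← hvalK, ← map_mul, ← hy, map_pow]
    · obtain ⟨F, _, P, Q, w, g, c, hw, hc, hwg, hPQ, hy, hreal⟩ := h
      refine Pool.Agent.Lib.MP_2f3286_ag.PA.crit_of_real R hmax s hsec x y hx F P Q w g hw c hc hwg hPQ ?_ fun τ => ?_
      · rw [hy, hval, hval]
      · exact hreal τ
    · obtain ⟨F, hF, w, c, ξ, hw, hc, hξ, h⟩ := h
      exact ⟨F, hF, w, c, ξ, hw, hc, by rw [hξ, hval], h⟩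
  obtain ⟨F, _, w, c, ξ, hw, hc, hξ, hcase'⟩ := hcrit
  obtain ⟨a, Δ, Ψ, h1, h2, h3, h4, h5, h6, h7, h8⟩ := Pool.Agent.Lib.MP_2f3286_ag.PA.crit_final R hR hfg x hx
    (fun Ψ hΨ g _ hg => hun g ⟨Ψ, hΨ, hg⟩) hmax s hs hsec ι φ hφ F w hw c hc ξ hξ hcase' T N hN hint
  have hrat : (∀ r : R, algebraMap R M r ∈
      Subring.closure {b : M | IsIntegral R b ∧ IsIntegral R b⁻¹}) → IsRational s ι φ := by
    intro hRU
    refine ⟨Ψ, (htop Ψ).mp (h7 fun r => ?_), (h8 hRU).1, fun Ψ' hΨ' => (h8 hRU).2 Ψ' ((htop Ψ').mpr hΨ')⟩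
    obtain ⟨d, hd, -⟩ := (h8 hRU).1 r
    exact ⟨d, hd⟩
  refine ⟨⟨a, Δ, Ψ, h1, ⟨h2, h3⟩, h4, h5, fun Δ' Ψ' hΔ' hΨ' hr => h6 Ψ' hΨ'.1 hr ⟨Δ', hΔ', hΨ'.2⟩,
    fun hk => (htop Ψ).mp (h7 hk)⟩, hrat, fun hcase2 hRxy => hrat fun r => ?_⟩
  -- the equation of `y`
  obtain ⟨S, hS⟩ : ∃ S : (AlgebraicClosure k)[X], algebraMap R M y ^ 2 = Pool.Agent.Lib.MP_2f3286_ag.PA.evM R M x S := by
    rcases hcase2 with h | h | h
    · obtain ⟨-, P, Q, -, -, -, -, -, -, -, -, -, -, -, hy⟩ := h
      refine ⟨Pool.Agent.Lib.MP_2f3286_ag.PA.intP k P * Pool.Agent.Lib.MP_2f3286_ag.PA.intP k Q, ?_⟩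
      rw [map_mul, ← hvalZ, ← hvalZ, ← map_mul, ← hy, map_pow]
    · obtain ⟨P, Q, -, -, -, -, -, -, -, hy, -⟩ := h
      refine ⟨P.map (algebraMap k (AlgebraicClosure k)) * Q.map (algebraMap k (AlgebraicClosure k)), ?_⟩
      rw [map_mul, ← hvalK, ← hvalK, ← map_mul, ← hy, map_pow]
    · obtain ⟨F', _, P, Q, -, -, -, -, -, -, -, hy, -⟩ := h
      refine ⟨P.map (algebraMap F' (AlgebraicClosure k)) * Q.map (algebraMap F' (AlgebraicClosure k)), ?_⟩
      rw [map_mul, hy, hval, hval]
  exact Pool.Agent.Lib.MP_2f3286_ag.PA.adjoin_mem R hmax s x y hx ⟨F, inferInstance, w, c, ξ, hw, hc, hξ, hcase'⟩ S hS hRxy r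

end Pool.Agent.Results.MP_2f3286_ag.PuncturedHyperelliptic
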