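import Mathlib
import Pool.Agent.Lib.MP_2f3286_ag.SNeigh.Uni

/-!
# Sections of the full fundamental group of a curve, or of the Galois group of its function field, and
elliptic curves of rank one

Let `K` be the function field of a curve over a number field `k`, `U` the proper curve or an affine
open part of it: the places at which the functions in `R` are finite. Let `s` be either a section of
the fundamental group of `U` that comes from local points of `U` over almost all completions of a
finite extension `F` of `k`, or any section of the absolute Galois group of `K`. Let `W` be an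
elliptic curve over `F` with `W(F)` of rank one and Tate-Shafarevich group of finite exponent, and
suppose that some neighbourhood of `s` over `F` has two maps to `W` that are independent modulo
constants: `W` has two such points over the field of elements fixed by `s(G_F)`. Then `s` is the
section of a closed point of `U`, resp. of a rational place, and the values at this point of all maps
from neighbourhoods over `F` to `W` are in `W(F)` and equal to the values at all the local points.
-/

open IsDedekindDomain NumberField WeierstrassCurve WeierstrassCurve.Affine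
open Pool.Agent.Lib.MP_2f3286_ag.Sel Pool.Agent.Lib.MP_2f3286_ag.Pt
open Pool.Agent.Lib.MP_2f3286_ag.Koe (FixedPt)

namespace Pool.Agent.Results.MP_2f3286_ag.SelmerFull

open scoped Classical in
universe u v in
theorem result {k : Type u} [Field k] [NumberField k]
    -- the function field of a curve
    {K : Type*} [Field K] [Algebra k K] (hK : (⊤ : IntermediateField k K).FG)
    (htr : Algebra.trdeg k K = 1)
    -- the curve `U`: the places at which the functions in `R` are finite (all places if `R = k`)
    (R : Subalgebra k K) (hR : R.FG)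
    -- a Galois extension of `K`, a section of its Galois group
    {M : Type*} [Field M] [Algebra K M] [IsGalois K M]
    [Algebra (AlgebraicClosure k) M] [Algebra k M]
    [IsScalarTower k K M] [IsScalarTower k (AlgebraicClosure k) M]
    (s : Gal(AlgebraicClosure k/k) →* Gal(M/K)) (hs : Continuous s)
    (hsec : ∀ σ a, s σ (algebraMap (AlgebraicClosure k) M a) =
      algebraMap (AlgebraicClosure k) M (σ a))
    -- a finite extension `F` of `k`
    {F : Type v} [Field F] [NumberField F] [Algebra k F]
    [Algebra F (AlgebraicClosure k)] [IsScalarTower k F (AlgebraicClosure k)]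
    [Algebra F M] [IsScalarTower F (AlgebraicClosure k) M]
    -- `M` is the maximal unramified extension of `K` over `U`, with Galois group the fundamental
    -- group, and the section has local points in `U` over the completions of `F` outside `S`; or
    -- `M` is an algebraic closure of `K`, and `U` the proper curve
    (S : Finset (HeightOneSpectrum (𝓞 F)))
    (hM : (IsMaxUnramOver R K M (AlgebraicClosure k) ∧
      ∀ w ∉ S, ∃ (ι : AlgebraicClosure k →ₐ[F] AlgebraicClosure (w.adicCompletion F))
        (A : ValuationSubring M) (φ : A →+* AlgebraicClosure (w.adicCompletion F)),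
        IsPlaceOf s (w.adicCompletion F)
          (ι : _ →+* AlgebraicClosure (w.adicCompletion F)) A φ ∧
            ∀ r : R, algebraMap K M r ∈ A) ∨ (IsAlgClosed M ∧ R = ⊥))
    -- an elliptic curve over `F` of rank one, with Tate-Shafarevich group (off `S`) killed by `m`
    (W : WeierstrassCurve F) [W.IsShortNF] [W.IsElliptic]
    (P : (W⁄F).Point) (hP : ∀ n : ℕ, n ≠ 0 → n • P ≠ 0)
    (hrk : ∀ Q : (W⁄F).Point, ∃ a : ℤ, IsOfFinAddOrder (Q - a • P))
    (m : ℕ) (hm : 1 ≤ m) (hsha : ShaKilledBy W S m)
    -- two independent maps from a neighbourhood of the section over `F`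
    (η₁ η₂ : (W⁄M).Point) (h₁ : FixedPt s η₁) (h₂ : FixedPt s η₂)
    (hind : ∀ a b : ℤ, (∃ Q : (W⁄F).Point, a • η₁ + b • η₂ = Point.baseChange F M Q) →
      a = 0 ∧ b = 0) :
    ∃ (A₀ : ValuationSubring M) (ψ₀ : A₀ →+* AlgebraicClosure k) (Ψ : (W⁄M).Point → (W⁄F).Point),
      -- `s` is the section of the place, which lies on `U`
      (∀ r : R, algebraMap K M r ∈ A₀) ∧ IsSectionAt s A₀ ψ₀ ∧
      -- it is the only such place (over its restriction to `K`, if `M` is not algebraically closed)
      (∀ (A₁ : ValuationSubring M) (ψ₁ : A₁ →+* AlgebraicClosure k), IsSectionAt s A₁ ψ₁ →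
        (IsAlgClosed M ∨ ∀ (f : K) (h : algebraMap K M f ∈ A₀), ∃ h' : algebraMap K M f ∈ A₁,
          ψ₁ ⟨_, h'⟩ = ψ₀ ⟨_, h⟩) →
        A₁ = A₀ ∧ ∀ (a : A₁) (b : A₀), (a : M) = b → ψ₁ a = ψ₀ b) ∧
      -- the maps from neighbourhoods over `F` to `W` have values in `W(F)` at the place, and the
      -- same values at all places of which `s` is the section over a completion of `F` outside `S`
      (∀ η η', FixedPt s η → FixedPt s η' → Ψ (η + η') = Ψ η + Ψ η') ∧
      (∀ η, FixedPt s η → HasValue A₀ ψ₀ η (Ψ η)) ∧
      (∀ w ∉ S, ∀ (ι : AlgebraicClosure k →ₐ[F] AlgebraicClosure (w.adicCompletion F))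
        (A : ValuationSubring M) (φ : A →+* AlgebraicClosure (w.adicCompletion F)),
        IsPlaceOf s (w.adicCompletion F)
          (ι : _ →+* AlgebraicClosure (w.adicCompletion F)) A φ →
        ∀ η, FixedPt s η →
          HasValue A φ η (Point.baseChange F (w.adicCompletion F) (Ψ η))) ∧
      -- for the absolute Galois group the place is rational
      (IsAlgClosed M → IsPlaceOf s k (RingHom.id _) A₀ ψ₀) ∧
      -- if these values separate it from the other places, its values on `K` lie in `F`
      ((∀ (A₁ : ValuationSubring M) (ψ₁ : A₁ →+* AlgebraicClosure k),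
          (∀ a, ∃ h : algebraMap (AlgebraicClosure k) M a ∈ A₁, ψ₁ ⟨_, h⟩ = a) →
          (∀ x : A₁, ψ₁ x ≠ 0 → (x : M)⁻¹ ∈ A₁) →
          (∀ η, FixedPt s η → HasValue A₁ ψ₁ η (Ψ η)) →
          ∀ (f : K) (h : algebraMap K M f ∈ A₀), ∃ h' : algebraMap K M f ∈ A₁,
            ψ₁ ⟨_, h'⟩ = ψ₀ ⟨_, h⟩) →
        ∀ σ : Gal(AlgebraicClosure k/k), (∀ a : F, σ (algebraMap F _ a) = algebraMap F _ a) →
          ∀ (f : K) (h : algebraMap K M f ∈ A₀), σ (ψ₀ ⟨_, h⟩) = ψ₀ ⟨_, h⟩) :=
  Pool.Agent.Lib.MP_2f3286_ag.SNeigh.neigh_uni hK htr R hR s hs hsec S hM W P hP hrk m hm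
    hsha η₁ η₂ h₁ h₂ hind

end Pool.Agent.Results.MP_2f3286_ag.SelmerFull
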