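import Mathlib
import Pool.Agent.Lib.MP_2f3286_ag.HYP.CvMain

/-!
# Sections and the 2-adic Selmer group of a hyperelliptic curve of odd degree

Let `F` be the field of rational numbers or an imaginary quadratic field, `C : y ^ 2 = f(x)` with `f`
over `F` monic and separable of odd degree `2 g + 1 ≥ 3`, `J` its Jacobian. Suppose that every element
of the 2-adic Selmer group of `J` over `F` which is at every place of `F` the class of a point of `C`
is a torsion element (this follows from the conditions of Poonen and Stoll, which hold for a proportion
of the `f` over the integers that tends to `1` with `g`, and from the finiteness of the Selmer group).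
Let `K` be the function field of a curve over a subfield `k` of `F`, and `s`

* any section of the absolute Galois group of `K`; or
* a section of the full fundamental group of a normal affine curve `U` with function field `K`.

Suppose that a neighbourhood of `s` over `F` (`F = k` and `U` itself, or any finite étale covering of
`U` over `F` to which `s` lifts) has a nonconstant map to `C`, in the second case to the part
`C₀ = C - {y = 0, ∞}` of `C`.

**Geometric and cuspidal sections.** In the second case suppose that `s` is at each finite place of `F`
the section of a place which is a point of `U` or lies over `C - C₀`; if `U` is a covering of `C₀` or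
`C₀` one of `U`, e.g. if `U = C₀`, this means that `s` is locally geometric or cuspidal. Then `s` is
geometric or cuspidal.

Precisely, either `s` is the section of a closed point of `U`, the only one with given values of those
functions on `U` which are not sums of units on coverings, and all sums of units have rational values at
it, equal to those at all local points; or it is, over a finite extension of `k`, the section of a place
over `C - C₀`. The second case occurs if and only if it occurs for one, and then for each, place of `s`
over a completion of `F`. If `K` is contained in the function field of `C` over `F`, e.g. if `U = C₀`, and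
also for the absolute Galois group of `K`, the section `s` is over `k` the section of exactly one place,
a rational point of `U` or a rational cusp.

The conditions at the infinite place can be omitted (`Q = False`).
-/

open Polynomial IsDedekindDomain NumberField
open Pool.Agent.Lib.MP_2f3286_ag
open Pool.Agent.Lib.MP_2f3286_ag.Sel (IsPlaceOf IsSectionAt)
open Pool.Agent.Lib.MP_2f3286_ag.Pt (IsMaxUnramOver)

namespace Pool.Agent.Results.MP_2f3286_ag.SelmerHyperelliptic

/-- The place `(A, φ)` of `M` lies on the curve `U` with ring of functions `R`, and over the extension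
`E` of `k` the section `s` is the section of this place. -/
def IsPointOn {k kb K M : Type*} [Field k] [Field kb] [Algebra k kb] [Field K] [Algebra k K]
    [Field M] [Algebra K M] [Algebra kb M] (s : Gal(kb/k) →* Gal(M/K)) (R : Subalgebra k K)
    (E : Type*) {Eb : Type*} [Field E] [Field Eb] [Algebra E Eb] (ι : kb →+* Eb)
    (A : ValuationSubring M) (φ : A →+* Eb) : Prop :=
  IsPlaceOf s E ι A φ ∧ ∀ r : R, algebraMap K M r ∈ A

/-- `h` is in the set `D`: all functions if `M` is algebraically closed, otherwise the polynomials in
`x`, `y`, `1 / y` over `F` and the sums of units of the integral closure of `R` in `M`. -/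
def InD {k K : Type*} [Field k] [Field K] [Algebra k K] (R : Subalgebra k K) (F : Type*) [Field F]
    {M : Type*} [Field M] [Algebra K M] [Algebra F M] (x y : M) (h : K) : Prop :=
  IsAlgClosed M ∨ algebraMap K M h ∈ Algebra.adjoin F {x, y, y⁻¹} ∨
    algebraMap K M h ∈ unitRing R M

/-- The function `h` has a value in `k` at the place `(A₀, ψ₀)`, and the same value at every place on
`U` of which `s` is the section over a completion of `F`. -/
def HasRationalValue {k K M : Type*} [Field k] [Field K] [Algebra k K] [Field M]
    [Algebra K M] [Algebra (AlgebraicClosure k) M] (s : Gal(AlgebraicClosure k/k) →* Gal(M/K))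
    (R : Subalgebra k K) (F : Type*) [Field F] [NumberField F] [Algebra F (AlgebraicClosure k)]
    (A₀ : ValuationSubring M) (ψ₀ : A₀ →+* AlgebraicClosure k) (h : K) : Prop :=
  ∃ (c : k) (hh : algebraMap K M h ∈ A₀), ψ₀ ⟨algebraMap K M h, hh⟩ = algebraMap k _ c ∧
    ∀ (v : HeightOneSpectrum (𝓞 F))
      (ι : AlgebraicClosure k →ₐ[F] AlgebraicClosure (v.adicCompletion F))
      (A : ValuationSubring M) (φ : A →+* AlgebraicClosure (v.adicCompletion F)),
      IsPointOn s R (v.adicCompletion F) (ι : _ →+* AlgebraicClosure (v.adicCompletion F)) A φ →
      ∃ h' : algebraMap K M h ∈ A, φ ⟨algebraMap K M h, h'⟩ = ι (algebraMap k _ c)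

universe u v

theorem result {k : Type u} [Field k] [NumberField k]
    -- a finite extension `F` of `k`
    {F : Type v} [Field F] [NumberField F] [Algebra k F]
    [Algebra F (AlgebraicClosure k)] [IsScalarTower k F (AlgebraicClosure k)]
    (hF : Fintype.card (InfinitePlace F) = 1)
    -- the curve `y ^ 2 = f(x)` over `F`
    (f : F[X]) (hf : f.Monic) (hsep : f.Separable) (hodd : Odd f.natDegree)
    (hdeg : 3 ≤ f.natDegree)
    -- elements of the 2-adic Selmer group which come everywhere from local points are torsion; the
    -- condition at the infinite places is included if `Q` is true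
    (Q : Prop) (hS : HYP.SelTorR F f Q)
    -- the function field of a curve over `k`
    {K : Type*} [Field K] [Algebra k K] (htr : Algebra.trdeg k K = 1)
    -- the curve `U`: the places at which the functions in `R` are finite (all places if `R = k`)
    (R : Subalgebra k K)
    -- a Galois extension of `K`, a section of its Galois group
    {M : Type*} [Field M] [Algebra K M] [IsGalois K M]
    [Algebra (AlgebraicClosure k) M] [Algebra k M]
    [IsScalarTower k K M] [IsScalarTower k (AlgebraicClosure k) M]
    [Algebra F M] [IsScalarTower F (AlgebraicClosure k) M]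
    (s : Gal(AlgebraicClosure k/k) →* Gal(M/K)) (hs : Continuous s)
    (hsec : ∀ σ a, s σ (algebraMap (AlgebraicClosure k) M a) =
      algebraMap (AlgebraicClosure k) M (σ a))
    -- a map to `y ^ 2 = f(x)` from a neighbourhood of the section over `F`
    (x y : M) (hfix : ∀ σ : Gal(AlgebraicClosure k/k),
      (∀ a : F, σ (algebraMap F _ a) = algebraMap F _ a) → s σ x = x ∧ s σ y = y)
    (hx : ∀ c : F, x ≠ algebraMap F M c) (hxy : y ^ 2 = aeval x f)
    -- `M` is an algebraic closure of `K`, and `U` the proper curve; or
    (hM : (IsAlgClosed M ∧ R = ⊥) ∨
      -- `U` is a normal affine curve, `M` the maximal unramified extension of `K` over `U`, with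
      -- Galois group the fundamental group, `x`, `y`, `1 / y` are regular on a covering of `U`
      (R.FG ∧ (∀ h : K, IsIntegral R h → h ∈ R) ∧ IsIntegral R x ∧ IsIntegral R y ∧
        IsIntegral R y⁻¹ ∧ IsMaxUnramOver R K M (AlgebraicClosure k) ∧
        -- and `s` is at each finite place of `F` the section of a point of `U` or of a place over
        -- the points of the curve where `y` is `0` or infinite
        (∀ v : HeightOneSpectrum (𝓞 F),
          ∃ (ι : AlgebraicClosure k →ₐ[F] AlgebraicClosure (v.adicCompletion F))
            (A : ValuationSubring M) (φ : A →+* AlgebraicClosure (v.adicCompletion F)),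
            IsPlaceOf s (v.adicCompletion F)
              (ι : _ →+* AlgebraicClosure (v.adicCompletion F)) A φ ∧
            (x ∈ A → y⁻¹ ∈ A → ∀ r : R, algebraMap K M r ∈ A)) ∧
        -- and in each real embedding of `F` the section of a place
        (Q → ∀ τ : AlgebraicClosure k →+* ℂ,
          (∀ a : F, starRingEnd ℂ (τ (algebraMap F _ a)) = τ (algebraMap F _ a)) →
          ∃ (A : ValuationSubring M) (φ : A →+* ℂ), IsPlaceOf s ℝ τ A φ))) :
    ∃ (A₀ : ValuationSubring M) (ψ₀ : A₀ →+* AlgebraicClosure k),
      -- (G) `s` is the section of the place, which lies on `U`,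
      (((∀ r : R, algebraMap K M r ∈ A₀) ∧ IsSectionAt s A₀ ψ₀ ∧
        -- is the only such place at which the functions on `U` not in `D` have given values,
        (∀ (A₁ : ValuationSubring M) (ψ₁ : A₁ →+* AlgebraicClosure k), IsSectionAt s A₁ ψ₁ →
          (∀ (r : R) (h₀ : algebraMap K M r ∈ A₀), ∃ h₁ : algebraMap K M r ∈ A₁,
            InD R F x y r ∨ ψ₁ ⟨_, h₁⟩ = ψ₀ ⟨_, h₀⟩) →
          A₁ = A₀ ∧ ∀ (a : A₁) (b : A₀), (a : M) = b → ψ₁ a = ψ₀ b) ∧
        -- all functions in `D` have rational values,
        (∀ h : K, algebraMap K M h ∈ A₀ → InD R F x y h → HasRationalValue s R F A₀ ψ₀ h) ∧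
        -- if all functions on `U` are in `D`, the place is rational;
        ((∀ r : R, InD R F x y r) → IsPlaceOf s k (RingHom.id _) A₀ ψ₀)) ∨
      -- (C) or `y` is zero or infinite at the place, and `s` is its section over a finite extension
      (R ≠ ⊥ ∧ ¬ (x ∈ A₀ ∧ y⁻¹ ∈ A₀) ∧
        ∃ E : IntermediateField k (AlgebraicClosure k), FiniteDimensional k E ∧
          IsPlaceOf s E (RingHom.id _) A₀ ψ₀)) ∧
      -- all the local places of `s` are of the same kind as `(A₀, ψ₀)`
      (∀ (v : HeightOneSpectrum (𝓞 F))
        (ι : AlgebraicClosure k →ₐ[F] AlgebraicClosure (v.adicCompletion F))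
        (A : ValuationSubring M) (φ : A →+* AlgebraicClosure (v.adicCompletion F)),
        IsPlaceOf s (v.adicCompletion F)
          (ι : _ →+* AlgebraicClosure (v.adicCompletion F)) A φ →
        (x ∈ A ∧ y⁻¹ ∈ A ↔ x ∈ A₀ ∧ y⁻¹ ∈ A₀)) ∧
      -- if `M` is an algebraic closure of `K`, or if `K` is contained in `F(x, y)`, then `s` is over
      -- `k` the section of exactly one place
      ((IsAlgClosed M ∧ R = ⊥ ∨
          ∀ z : K, algebraMap K M z ∈ IntermediateField.adjoin F {x, y}) →
        IsPlaceOf s k (RingHom.id _) A₀ ψ₀ ∧
        ∀ (A₁ : ValuationSubring M) (ψ₁ : A₁ →+* AlgebraicClosure k),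
          IsPlaceOf s k (RingHom.id _) A₁ ψ₁ →
          A₁ = A₀ ∧ ∀ (a : A₁) (b : A₀), (a : M) = b → ψ₁ a = ψ₀ b) := by
  obtain ⟨g, hg⟩ := hodd
  exact HYP.geo_or_cusp hF hf hsep (g := g) (by omega) hg hS htr R s hs hsec hfix hx hxy hM

end Pool.Agent.Results.MP_2f3286_ag.SelmerHyperelliptic
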